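import Mathlib

set_option autoImplicit false

open Finset Filter Topology

namespace Pool.Agent.CMPP_M

lemma summable_norm_mul {ι κ : Type} {f : ι → ℂ} {g : κ → ℂ}
    (hf : Summable (fun i => ‖f i‖)) (hg : Summable (fun i => ‖g i‖)) :
    Summable (fun p : ι × κ => ‖f p.1 * g p.2‖) := by
  have h := Summable.mul_of_nonneg (f := fun i => ‖f i‖) (g := fun i => ‖g i‖) hf hg
    (fun _ => norm_nonneg _) (fun _ => norm_nonneg _)
  exact h.congr fun p => (norm_mul _ _).symm

lemma hasSum_mul' {ι κ : Type} {f : ι → ℂ} {g : κ → ℂ} {a b : ℂ}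
    (hf : Summable (fun i => ‖f i‖)) (hg : Summable (fun i => ‖g i‖))
    (h1 : HasSum f a) (h2 : HasSum g b) :
    HasSum (fun p : ι × κ => f p.1 * g p.2) (a * b) := by
  have h := (summable_norm_mul hf hg).of_norm
  exact h1.mul h2 h

variable {ι : Type} [Fintype ι]

/-- the monomial `z^μ` -/
noncomputable def mon (z : ι → ℂ) (μ : ι → ℤ) : ℂ := ∏ i, z i ^ μ i

/-- all coordinates nonzero -/
def NZ (z : ι → ℂ) : Prop := ∀ i, z i ≠ 0

lemma mon_add {z : ι → ℂ} (hz : NZ z) (μ ν : ι → ℤ) : mon z (μ + ν) = mon z μ * mon z ν := by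
  simp only [mon, Pi.add_apply, ← prod_mul_distrib]
  exact prod_congr rfl fun i _ => zpow_add₀ (hz i) _ _

lemma mon_zero (z : ι → ℂ) : mon z 0 = 1 := by simp [mon]

lemma mon_ne {z : ι → ℂ} (hz : NZ z) (μ : ι → ℤ) : mon z μ ≠ 0 :=
  prod_ne_zero_iff.mpr fun i _ => zpow_ne_zero _ (hz i)

lemma mon_one (μ : ι → ℤ) : mon (fun _ => (1 : ℂ)) μ = 1 := by simp [mon]

lemma NZ_one : NZ (fun _ : ι => (1 : ℂ)) := fun _ => one_ne_zero

/-- `f` is given on `(ℂ*)^ι` by the everywhere absolutely convergent Laurent series with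
coefficients `g` -/
def IsL (f : (ι → ℂ) → ℂ) (g : (ι → ℤ) → ℂ) : Prop :=
  ∀ z, NZ z → Summable (fun μ => ‖g μ * mon z μ‖) ∧ HasSum (fun μ => g μ * mon z μ) (f z)

lemma IsL.of_family {J : Type} {f : (ι → ℂ) → ℂ} (c : J → ℂ) (β : J → ι → ℤ)
    (h : ∀ z, NZ z → Summable (fun j => ‖c j * mon z (β j)‖) ∧
      HasSum (fun j => c j * mon z (β j)) (f z)) :
    IsL f (fun μ => ∑' j : β ⁻¹' {μ}, c j) := by
  intro z hz
  obtain ⟨h1, h2⟩ := h z hz
  have e : ∀ μ : ι → ℤ, (∑' j : β ⁻¹' {μ}, c j) * mon z μ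
      = ∑' j : β ⁻¹' {μ}, c j * mon z (β j) := by
    intro μ
    rw [← tsum_mul_right]
    refine tsum_congr fun j => ?_
    have : β j = μ := j.2
    rw [this]
  constructor
  · have h3 := (h1.hasSum.tsum_fiberwise β).summable
    refine Summable.of_nonneg_of_le (fun _ => norm_nonneg _) (fun μ => ?_) h3
    rw [e μ]
    refine norm_tsum_le_tsum_norm ?_
    exact h1.comp_injective (i := fun j : β ⁻¹' {μ} => (j : J)) Subtype.val_injective
  · have h3 := h2.tsum_fiberwise β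
    simpa only [e] using h3

lemma IsL.mul {f f' : (ι → ℂ) → ℂ} {g g' : (ι → ℤ) → ℂ} (h : IsL f g) (h' : IsL f' g') :
    ∃ g'' : (ι → ℤ) → ℂ, IsL (fun z => f z * f' z) g'' := by
  refine ⟨_, IsL.of_family (J := (ι → ℤ) × (ι → ℤ)) (fun j => g j.1 * g' j.2)
    (fun j => j.1 + j.2) fun z hz => ?_⟩
  obtain ⟨h1, h2⟩ := h z hz
  obtain ⟨h1', h2'⟩ := h' z hz
  have e : ∀ j : (ι → ℤ) × (ι → ℤ), g j.1 * g' j.2 * mon z (j.1 + j.2)
      = (g j.1 * mon z j.1) * (g' j.2 * mon z j.2) := by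
    intro j; rw [mon_add hz]; ring
  simp only [e]
  constructor
  · exact summable_norm_mul (f := fun μ : ι → ℤ => g μ * CMPP_M.mon z μ)
      (g := fun μ : ι → ℤ => g' μ * CMPP_M.mon z μ) h1 h1'
  · exact hasSum_mul' (f := fun μ : ι → ℤ => g μ * CMPP_M.mon z μ)
      (g := fun μ : ι → ℤ => g' μ * CMPP_M.mon z μ) h1 h1' h2 h2'

lemma IsL.mon (α : ι → ℤ) : ∃ g : (ι → ℤ) → ℂ, IsL (fun z => mon z α) g := by
  refine ⟨_, IsL.of_family (J := Unit) (fun _ => 1) (fun _ => α) fun z hz => ⟨?_, ?_⟩⟩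
  · exact (hasSum_fintype _).summable
  · simpa using hasSum_fintype (fun _ : Unit => (1 : ℂ) * CMPP_M.mon z α)

lemma IsL.prod {κ : Type} (S : Finset κ) (f : κ → (ι → ℂ) → ℂ)
    (h : ∀ a ∈ S, ∃ g : (ι → ℤ) → ℂ, IsL (f a) g) :
    ∃ g : (ι → ℤ) → ℂ, IsL (fun z => ∏ a ∈ S, f a z) g := by
  classical
  induction S using Finset.induction_on with
  | empty =>
    obtain ⟨g, hg⟩ := IsL.mon (0 : ι → ℤ)
    refine ⟨g, fun z hz => ?_⟩
    have := hg z hz
    simpa [mon_zero] using this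
  | insert a S ha ih =>
    obtain ⟨g1, h1⟩ := h a (mem_insert_self _ _)
    obtain ⟨g2, h2⟩ := ih fun b hb => h b (mem_insert_of_mem hb)
    obtain ⟨g3, h3⟩ := h1.mul h2
    refine ⟨g3, fun z hz => ?_⟩
    have := h3 z hz
    simpa [prod_insert ha] using this

lemma IsL.congr {f f' : (ι → ℂ) → ℂ} {g : (ι → ℤ) → ℂ} (h : IsL f g)
    (e : ∀ z, NZ z → f z = f' z) : IsL f' g := fun z hz => by
  rw [← e z hz]; exact h z hz

section Unique

open MeasureTheory UnitAddTorus

noncomputable local instance instMSUAC : MeasureSpace UnitAddCircle := ⟨AddCircle.haarAddCircle⟩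

local instance : Measure.IsAddHaarMeasure (volume : Measure UnitAddCircle) :=
  inferInstanceAs (Measure.IsAddHaarMeasure AddCircle.haarAddCircle)

local instance : IsProbabilityMeasure (volume : Measure UnitAddCircle) :=
  inferInstanceAs (IsProbabilityMeasure AddCircle.haarAddCircle)

/-- uniqueness of Laurent coefficients -/
lemma IsL.unique {f : (ι → ℂ) → ℂ} {g g' : (ι → ℤ) → ℂ} (h : IsL f g) (h' : IsL f g') :
    g = g' := by
  classical
  have hn : Summable fun μ => ‖g μ - g' μ‖ := by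
    have h1 := (h (fun _ => 1) NZ_one).1
    have h2 := (h' (fun _ => 1) NZ_one).1
    simp only [mon_one, mul_one] at h1 h2
    exact Summable.of_nonneg_of_le (fun _ => norm_nonneg _) (fun μ => norm_sub_le _ _) (h1.add h2)
  have hS : Summable (fun μ : ι → ℤ => (g μ - g' μ) • mFourier μ) := by
    refine Summable.of_norm ?_
    refine hn.congr fun μ => ?_
    rw [norm_smul, mFourier_norm, mul_one]
  have hz : ∀ x : UnitAddTorus ι, (∑' μ : ι → ℤ, (g μ - g' μ) • mFourier μ : C(UnitAddTorus ι, ℂ)) x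
      = 0 := by
    intro x
    set z : ι → ℂ := fun i => fourier 1 (x i) with hzdef
    have hz : NZ z := by
      intro i
      simp only [hzdef, fourier_apply]
      exact Circle.coe_ne_zero _
    have h1 := (h z hz).2.sub (h' z hz).2
    have h2 := (hS.hasSum).map (ContinuousMap.evalCLM ℂ x) (ContinuousMap.evalCLM ℂ x).continuous
    have e : ((ContinuousMap.evalCLM ℂ x) ∘ fun μ : ι → ℤ => (g μ - g' μ) • mFourier μ)
        = fun μ => g μ * CMPP_M.mon z μ - g' μ * CMPP_M.mon z μ := by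
      funext μ
      have e1 : mFourier μ x = CMPP_M.mon z μ := by
        simp only [mFourier, ContinuousMap.coe_mk, CMPP_M.mon]
        refine prod_congr rfl fun i _ => ?_
        simp only [hzdef, fourier_apply, one_smul, AddCircle.toCircle_zsmul, Circle.coe_zpow]
      simp [e1, sub_mul]
    rw [e] at h2
    have h3 := h2.unique h1
    simpa using h3
  have hz0 : (∑' μ : ι → ℤ, (g μ - g' μ) • mFourier μ : C(UnitAddTorus ι, ℂ)) = 0 := by
    ext x; exact hz x
  have hS0 := hS.hasSum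
  rw [hz0] at hS0
  funext ν
  have h4 := hS0.mapL ((innerSL ℂ (mFourierLp (d := ι) 2 ν)).comp
    (ContinuousMap.toLp (E := ℂ) 2 (volume : Measure (UnitAddTorus ι)) ℂ))
  have ho := orthonormal_iff_ite.mp (orthonormal_mFourier (d := ι))
  have e5 : (fun μ : ι → ℤ => ((innerSL ℂ (mFourierLp (d := ι) 2 ν)).comp
    (ContinuousMap.toLp (E := ℂ) 2 (volume : Measure (UnitAddTorus ι)) ℂ))
      ((g μ - g' μ) • mFourier μ)) = fun μ => if μ = ν then g ν - g' ν else 0 := by
    funext μ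
    have h6 := ho ν μ
    simp only [ContinuousLinearMap.comp_apply, map_smul, innerSL_apply_apply]
    rw [h6]
    by_cases hμ : μ = ν
    · simp [hμ]
    · simp [hμ, Ne.symm hμ]
  rw [e5] at h4
  have h7 := (hasSum_ite_eq ν (g ν - g' ν)).unique h4
  simp only [map_zero] at h7
  exact sub_eq_zero.mp h7

end Unique

end Pool.Agent.CMPP_M
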