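import Pool.Agent.Lib_helper89.Mac.JTP
import Pool.Agent.Lib_helper89.Mac.Laurent

set_option autoImplicit false

open Finset Filter Topology

namespace Pool.Agent.CMPP_M

section Theta

variable {s : ℝ}

lemma th_shift (hs0 : 0 < s) (hs1 : s < 1) {z : ℂ} (hz : z ≠ 0) (n : ℤ) :
    th s ((s : ℂ) ^ (2 * n) * z) = (-z) ^ (-n) * (s : ℂ) ^ (n - n * n) * th s z := by
  have hs : (s : ℂ) ≠ 0 := by exact_mod_cast hs0.ne'
  have hz' : (-z) ≠ 0 := neg_ne_zero.mpr hz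
  have hQ : (Qi s : ℂ) ≠ 0 := by exact_mod_cast (Qi_pos hs0 hs1).ne'
  have h1 := jtp hs0 hs1 (z := (s : ℂ) ^ (2 * n) * z) (mul_ne_zero (zpow_ne_zero _ hs) hz)
  have h2 := jtp hs0 hs1 hz
  have h3 := (Equiv.subRight n).hasSum_iff.mpr h1
  have h4 : (fun m : ℤ => (-z) ^ (-n) * (s : ℂ) ^ (n - n * n) * ((-z) ^ m * (s : ℂ) ^ (m * m - m)))
      = (fun m : ℤ => (-((s : ℂ) ^ (2 * n) * z)) ^ m * (s : ℂ) ^ (m * m - m)) ∘ (Equiv.subRight n) := by
    funext m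
    simp only [Function.comp, Equiv.subRight_apply]
    rw [show -((s : ℂ) ^ (2 * n) * z) = (s : ℂ) ^ (2 * n) * (-z) by ring, mul_zpow,
      ← zpow_mul]
    have e1 : (-z) ^ (m - n) = (-z) ^ (-n) * (-z) ^ m := by
      rw [← zpow_add₀ hz']; congr 1; ring
    have e2 : (s : ℂ) ^ (2 * n * (m - n)) * (s : ℂ) ^ ((m - n) * (m - n) - (m - n))
        = (s : ℂ) ^ (n - n * n) * (s : ℂ) ^ (m * m - m) := by
      rw [← zpow_add₀ hs, ← zpow_add₀ hs]; congr 1; ring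
    calc _ = ((-z) ^ (-n) * (-z) ^ m) * ((s : ℂ) ^ (n - n * n) * (s : ℂ) ^ (m * m - m)) := by ring
      _ = _ := by rw [← e1, ← e2]; ring
  rw [← h4] at h3
  have h5 := h3.unique (h2.mul_left _)
  have h6 : (Qi s : ℂ) * th s ((s : ℂ) ^ (2 * n) * z)
      = (Qi s : ℂ) * ((-z) ^ (-n) * (s : ℂ) ^ (n - n * n) * th s z) := by
    rw [h5]; ring
  exact mul_left_cancel₀ hQ h6

lemma th_inv (hs0 : 0 < s) (hs1 : s < 1) {z : ℂ} (hz : z ≠ 0) :
    th s z⁻¹ = -z⁻¹ * th s z := by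
  have hs : (s : ℂ) ≠ 0 := by exact_mod_cast hs0.ne'
  have hz' : (-z) ≠ 0 := neg_ne_zero.mpr hz
  have hQ : (Qi s : ℂ) ≠ 0 := by exact_mod_cast (Qi_pos hs0 hs1).ne'
  have h1 := jtp hs0 hs1 (z := z⁻¹) (inv_ne_zero hz)
  have h2 := jtp hs0 hs1 hz
  have h3 := (Equiv.subLeft (1 : ℤ)).hasSum_iff.mpr h1
  have h4 : (fun m : ℤ => -z⁻¹ * ((-z) ^ m * (s : ℂ) ^ (m * m - m)))
      = (fun m : ℤ => (-z⁻¹) ^ m * (s : ℂ) ^ (m * m - m)) ∘ (Equiv.subLeft (1 : ℤ)) := by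
    funext m
    simp only [Function.comp, Equiv.subLeft_apply]
    have e0 : -z⁻¹ = (-z)⁻¹ := by rw [inv_neg]
    rw [e0, inv_zpow', show (-z) ^ (-(1 - m)) = (-z)⁻¹ * (-z) ^ m by
      rw [← zpow_neg_one, ← zpow_add₀ hz']; congr 1; ring,
      show (1 - m) * (1 - m) - (1 - m) = m * m - m by ring]
    ring
  rw [← h4] at h3
  have h5 := h3.unique (h2.mul_left _)
  have h6 : (Qi s : ℂ) * th s z⁻¹ = (Qi s : ℂ) * (-z⁻¹ * th s z) := by rw [h5]; ring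
  exact mul_left_cancel₀ hQ h6

/-- odd building block for the long roots -/
noncomputable def S1 (s : ℝ) (x : ℂ) : ℂ := x⁻¹ * th s (x * x)

/-- building block for a pair of short roots -/
noncomputable def S2 (s : ℝ) (x y : ℂ) : ℂ := x⁻¹ * (th s (x * y⁻¹) * th s (x * y))

lemma S1_shift (hs0 : 0 < s) (hs1 : s < 1) {x : ℂ} (hx : x ≠ 0) (n : ℤ) :
    S1 s ((s : ℂ) ^ (2 * n) * x) = ((s : ℂ) ^ (-(2 * n * n)) * x ^ (-(2 * n))) ^ (2 : ℤ) * S1 s x := by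
  have hs : (s : ℂ) ≠ 0 := by exact_mod_cast hs0.ne'
  have e1 : (s : ℂ) ^ (2 * n) * x * ((s : ℂ) ^ (2 * n) * x) = (s : ℂ) ^ (2 * (2 * n)) * (x * x) := by
    rw [show (2 * (2 * n)) = 2 * n + 2 * n by ring, zpow_add₀ hs]; ring
  have hxx : -(x * x) ≠ 0 := neg_ne_zero.mpr (mul_ne_zero hx hx)
  rw [S1, e1, th_shift hs0 hs1 (mul_ne_zero hx hx), S1, mul_inv, ← zpow_neg]
  have e2 : (-(x * x)) ^ (-(2 * n)) = x ^ (-(4 * n)) := by
    rw [show (-(2 * n)) = 2 * (-n) by ring, zpow_mul, show (-(x * x)) ^ (2 : ℤ) = x ^ (4 : ℤ) by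
      rw [zpow_ofNat, zpow_ofNat]; ring, ← zpow_mul]; congr 1; ring
  rw [e2, mul_zpow, ← zpow_mul, ← zpow_mul]
  have e3 : (s : ℂ) ^ (-(2 * n)) * (s : ℂ) ^ (2 * n - 2 * n * (2 * n)) = (s : ℂ) ^ (-(2 * n * n) * 2) := by
    rw [← zpow_add₀ hs]; congr 1; ring
  have e4 : x ^ (-(2 * n) * 2) = x ^ (-(4 * n)) := by congr 1; ring
  rw [← e3, e4]; ring

lemma S2_shift (hs0 : 0 < s) (hs1 : s < 1) {x y : ℂ} (hx : x ≠ 0) (hy : y ≠ 0) (a b : ℤ) :
    S2 s ((s : ℂ) ^ (2 * a) * x) ((s : ℂ) ^ (2 * b) * y)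
      = ((s : ℂ) ^ (-(2 * a * a)) * x ^ (-(2 * a))) * ((s : ℂ) ^ (-(2 * b * b)) * y ^ (-(2 * b)))
        * S2 s x y := by
  have hs : (s : ℂ) ≠ 0 := by exact_mod_cast hs0.ne'
  have hxy : x * y ≠ 0 := mul_ne_zero hx hy
  have hxy' : x * y⁻¹ ≠ 0 := mul_ne_zero hx (inv_ne_zero hy)
  have e1 : (s : ℂ) ^ (2 * a) * x * ((s : ℂ) ^ (2 * b) * y)⁻¹ = (s : ℂ) ^ (2 * (a - b)) * (x * y⁻¹) := by
    rw [show 2 * (a - b) = 2 * a - 2 * b by ring, zpow_sub₀ hs, mul_inv]; ring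
  have e2 : (s : ℂ) ^ (2 * a) * x * ((s : ℂ) ^ (2 * b) * y) = (s : ℂ) ^ (2 * (a + b)) * (x * y) := by
    rw [show 2 * (a + b) = 2 * a + 2 * b by ring, zpow_add₀ hs]; ring
  rw [S2, e1, e2, th_shift hs0 hs1 hxy', th_shift hs0 hs1 hxy, S2, mul_inv, ← zpow_neg]
  have e3 : (-(x * y⁻¹)) ^ (-(a - b)) * (-(x * y)) ^ (-(a + b)) = x ^ (-(2 * a)) * y ^ (-(2 * b)) := by
    rw [show -(x * y⁻¹) = (-1) * (x * y⁻¹) by ring, show -(x * y) = (-1) * (x * y) by ring,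
      mul_zpow, mul_zpow, mul_zpow, mul_zpow, inv_zpow']
    have f1 : (-1 : ℂ) ^ (-(a - b)) * (-1 : ℂ) ^ (-(a + b)) = 1 := by
      rw [← zpow_add₀ (by norm_num)]
      exact Even.neg_one_zpow ⟨-a, by ring⟩
    have f2 : x ^ (-(a - b)) * x ^ (-(a + b)) = x ^ (-(2 * a)) := by
      rw [← zpow_add₀ hx]; congr 1; ring
    have f3 : y ^ (-(-(a - b))) * y ^ (-(a + b)) = y ^ (-(2 * b)) := by
      rw [← zpow_add₀ hy]; congr 1; ring
    calc _ = ((-1 : ℂ) ^ (-(a - b)) * (-1 : ℂ) ^ (-(a + b))) * (x ^ (-(a - b)) * x ^ (-(a + b)))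
        * (y ^ (-(-(a - b))) * y ^ (-(a + b))) := by ring
      _ = _ := by rw [f1, f2, f3]; ring
  have e4 : (s : ℂ) ^ (-(2 * a)) * ((s : ℂ) ^ ((a - b) - (a - b) * (a - b)) *
      (s : ℂ) ^ ((a + b) - (a + b) * (a + b))) = (s : ℂ) ^ (-(2 * a * a)) * (s : ℂ) ^ (-(2 * b * b)) := by
    rw [← zpow_add₀ hs, ← zpow_add₀ hs, ← zpow_add₀ hs]; congr 1; ring
  calc _ = ((s : ℂ) ^ (-(2 * a)) * ((s : ℂ) ^ ((a - b) - (a - b) * (a - b)) *
      (s : ℂ) ^ ((a + b) - (a + b) * (a + b)))) *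
      ((-(x * y⁻¹)) ^ (-(a - b)) * (-(x * y)) ^ (-(a + b))) *
      (x⁻¹ * (th s (x * y⁻¹) * th s (x * y))) := by ring
    _ = _ := by rw [e3, e4]; ring

lemma S1_inv (hs0 : 0 < s) (hs1 : s < 1) {x : ℂ} (hx : x ≠ 0) : S1 s x⁻¹ = -S1 s x := by
  rw [S1, ← mul_inv, th_inv hs0 hs1 (mul_ne_zero hx hx), S1]
  field_simp

lemma S2_antisymm (hs0 : 0 < s) (hs1 : s < 1) {x y : ℂ} (hx : x ≠ 0) (hy : y ≠ 0) :
    S2 s x y = -S2 s y x := by
  have e : x * y⁻¹ = (y * x⁻¹)⁻¹ := by field_simp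
  rw [S2, e, th_inv hs0 hs1 (mul_ne_zero hy (inv_ne_zero hx)), S2, mul_comm x y]
  field_simp

lemma S2_inv_right {x y : ℂ} : S2 s x y⁻¹ = S2 s x y := by
  rw [S2, S2, inv_inv]; ring

lemma S2_inv_left (hs0 : 0 < s) (hs1 : s < 1) {x y : ℂ} (hx : x ≠ 0) (hy : y ≠ 0) :
    S2 s x⁻¹ y = S2 s x y := by
  rw [S2_antisymm hs0 hs1 (inv_ne_zero hx) hy, S2_inv_right, ← S2_antisymm hs0 hs1 hx hy]

lemma S1_unit (hs0 : 0 < s) (hs1 : s < 1) {x : ℂ} (hx : x ≠ 0) (ε : ℤˣ) :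
    S1 s (x ^ (ε : ℤ)) = ((ε : ℤ) : ℂ) * S1 s x := by
  rcases Int.units_eq_one_or ε with h | h
  · simp [h]
  · simp only [h, Units.val_neg, Units.val_one, zpow_neg_one, S1_inv hs0 hs1 hx]
    push_cast; ring

lemma S2_unit (hs0 : 0 < s) (hs1 : s < 1) {x y : ℂ} (hx : x ≠ 0) (hy : y ≠ 0) (ε δ : ℤˣ) :
    S2 s (x ^ (ε : ℤ)) (y ^ (δ : ℤ)) = S2 s x y := by
  rcases Int.units_eq_one_or ε with h | h <;> rcases Int.units_eq_one_or δ with h' | h' <;>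
    simp only [h, h', Units.val_neg, Units.val_one, zpow_neg_one, zpow_one, S2_inv_right,
      S2_inv_left hs0 hs1 hx hy]

end Theta

section Ft

variable {k : ℕ} {s : ℝ}

/-- the (normalised) Weyl denominator of type `C_k^{(1)}` -/
noncomputable def Ft (s : ℝ) (z : Fin k → ℂ) : ℂ :=
  (∏ t, S1 s (z t)) * ∏ t, ∏ u ∈ Iio t, S2 s (z t) (z u)

lemma Ft_perm (hs0 : 0 < s) (hs1 : s < 1) {z : Fin k → ℂ} (hz : NZ z) (σ : Equiv.Perm (Fin k)) :
    Ft s (z ∘ σ) = ((Equiv.Perm.sign σ : ℤ) : ℂ) * Ft s z := by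
  have h := σ.prod_Iio_comp_eq_sign_mul_prod (f := fun i j => S2 s (z j) (z i))
    (fun i j => S2_antisymm hs0 hs1 (hz j) (hz i))
  simp only [Ft, Function.comp]
  rw [h, Equiv.prod_comp σ (fun t => S1 s (z t))]
  ring

lemma Ft_unit (hs0 : 0 < s) (hs1 : s < 1) {z : Fin k → ℂ} (hz : NZ z) (ε : Fin k → ℤˣ) :
    Ft s (fun t => z t ^ (ε t : ℤ)) = (∏ t, ((ε t : ℤ) : ℂ)) * Ft s z := by
  simp only [Ft, S1_unit hs0 hs1 (hz _), S2_unit hs0 hs1 (hz _) (hz _), prod_mul_distrib]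
  ring

lemma prod_pairs (g : Fin k → ℂ) :
    ∏ t, ∏ u ∈ Iio t, (g t * g u) = ∏ t, g t ^ (k - 1) := by
  have h1 : ∏ t, ∏ u ∈ Iio t, (g t * g u) = (∏ t, ∏ _u ∈ Iio t, g t) * ∏ t, ∏ u ∈ Iio t, g u := by
    simp only [prod_mul_distrib]
  have h2 : ∏ t : Fin k, ∏ u ∈ Iio t, g u = ∏ u : Fin k, ∏ _t ∈ Ioi u, g u :=
    prod_comm' (by simp)
  rw [h1, h2, ← prod_mul_distrib]
  refine prod_congr rfl fun t _ => ?_
  rw [prod_const, prod_const, ← pow_add, Fin.card_Iio, Fin.card_Ioi]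
  congr 1
  have := t.2
  omega

lemma Ft_shift (hs0 : 0 < s) (hs1 : s < 1) {z : Fin k → ℂ} (hz : NZ z) (m : Fin k → ℤ) :
    Ft s (fun t => (s : ℂ) ^ (2 * m t) * z t)
      = (∏ t, ((s : ℂ) ^ (-(2 * m t * m t)) * z t ^ (-(2 * m t))) ^ (k + 1)) * Ft s z := by
  simp only [Ft, S1_shift hs0 hs1 (hz _), S2_shift hs0 hs1 (hz _) (hz _)]
  rw [prod_mul_distrib]
  have h1 : ∏ t, ∏ u ∈ Iio t, ((s : ℂ) ^ (-(2 * m t * m t)) * z t ^ (-(2 * m t)) *
      ((s : ℂ) ^ (-(2 * m u * m u)) * z u ^ (-(2 * m u))) * S2 s (z t) (z u))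
      = (∏ t, ((s : ℂ) ^ (-(2 * m t * m t)) * z t ^ (-(2 * m t))) ^ (k - 1)) *
        ∏ t, ∏ u ∈ Iio t, S2 s (z t) (z u) := by
    rw [← prod_pairs]
    simp only [prod_mul_distrib]
  rw [h1]
  have h2 : ∏ t, ((s : ℂ) ^ (-(2 * m t * m t)) * z t ^ (-(2 * m t))) ^ (k + 1)
      = (∏ t, ((s : ℂ) ^ (-(2 * m t * m t)) * z t ^ (-(2 * m t))) ^ (2 : ℤ)) *
        ∏ t, ((s : ℂ) ^ (-(2 * m t * m t)) * z t ^ (-(2 * m t))) ^ (k - 1) := by
    rw [← prod_mul_distrib]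
    refine prod_congr rfl fun t _ => ?_
    rw [zpow_ofNat, ← pow_add]
    congr 1
    have := t.2
    omega
  rw [h2]; ring

lemma mon_single (z : Fin k → ℂ) (t : Fin k) (n : ℤ) : mon z (Pi.single t n) = z t ^ n := by
  rw [mon, prod_eq_single t]
  · simp
  · intro b _ hb; simp [Pi.single_eq_of_ne hb]
  · simp

lemma prod_zpow_sum {a : ℂ} (ha : a ≠ 0) {κ : Type} (S : Finset κ) (f : κ → ℤ) :
    ∏ t ∈ S, a ^ f t = a ^ ∑ t ∈ S, f t := by
  classical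
  induction S using Finset.induction_on with
  | empty => simp
  | insert b S hb ih => rw [prod_insert hb, sum_insert hb, ih, zpow_add₀ ha]

lemma mon_zsmul {z : Fin k → ℂ} (_hz : NZ z) (m : ℤ) (α : Fin k → ℤ) :
    mon z (m • α) = (mon z α) ^ m := by
  simp only [mon, Pi.smul_apply, smul_eq_mul, ← prod_zpow]
  refine prod_congr rfl fun i _ => ?_
  rw [← zpow_mul, mul_comm]

lemma IsL_th (hs0 : 0 < s) (hs1 : s < 1) (α : Fin k → ℤ) :
    ∃ g : (Fin k → ℤ) → ℂ, IsL (fun z => th s (mon z α)) g := by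
  have hQ : (Qi s : ℂ) ≠ 0 := by exact_mod_cast (Qi_pos hs0 hs1).ne'
  refine ⟨_, IsL.of_family (J := ℤ) (fun m => (Qi s : ℂ)⁻¹ * ((-1) ^ m * (s : ℂ) ^ (m * m - m)))
    (fun m => m • α) fun z hz => ?_⟩
  have hα := mon_ne hz α
  have e : ∀ m : ℤ, (Qi s : ℂ)⁻¹ * ((-1) ^ m * (s : ℂ) ^ (m * m - m)) * mon z (m • α)
      = (Qi s : ℂ)⁻¹ * ((-(mon z α)) ^ m * (s : ℂ) ^ (m * m - m)) := by
    intro m
    rw [mon_zsmul hz, show -(mon z α) = (-1) * mon z α by ring, mul_zpow]; ring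
  simp only [e]
  constructor
  · have h := (summable_norm_theta hs0 hs1 (neg_ne_zero.mpr hα)).mul_left ‖(Qi s : ℂ)⁻¹‖
    refine h.congr fun m => ?_
    rw [← norm_mul]
  · have h := (jtp hs0 hs1 hα).mul_left (Qi s : ℂ)⁻¹
    have e2 : (Qi s : ℂ)⁻¹ * ((Qi s : ℂ) * th s (mon z α)) = th s (mon z α) := by
      field_simp
    rwa [e2] at h

lemma IsL_S1 (hs0 : 0 < s) (hs1 : s < 1) (t : Fin k) :
    ∃ g : (Fin k → ℤ) → ℂ, IsL (fun z => S1 s (z t)) g := by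
  obtain ⟨g1, h1⟩ := IsL.mon (Pi.single t (-1) : Fin k → ℤ)
  obtain ⟨g2, h2⟩ := IsL_th hs0 hs1 (Pi.single t 2 : Fin k → ℤ)
  obtain ⟨g3, h3⟩ := h1.mul h2
  refine ⟨g3, h3.congr fun z hz => ?_⟩
  rw [mon_single, mon_single, S1, zpow_neg_one, zpow_ofNat, pow_two]

lemma IsL_S2 (hs0 : 0 < s) (hs1 : s < 1) (t u : Fin k) :
    ∃ g : (Fin k → ℤ) → ℂ, IsL (fun z => S2 s (z t) (z u)) g := by
  obtain ⟨g1, h1⟩ := IsL.mon (Pi.single t (-1) : Fin k → ℤ)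
  obtain ⟨g2, h2⟩ := IsL_th hs0 hs1 (Pi.single t 1 + Pi.single u (-1) : Fin k → ℤ)
  obtain ⟨g3, h3⟩ := IsL_th hs0 hs1 (Pi.single t 1 + Pi.single u 1 : Fin k → ℤ)
  obtain ⟨g4, h4⟩ := h2.mul h3
  obtain ⟨g5, h5⟩ := h1.mul h4
  refine ⟨g5, h5.congr fun z hz => ?_⟩
  rw [mon_add hz, mon_add hz, mon_single, mon_single, mon_single, mon_single, S2, zpow_neg_one,
    zpow_neg_one, zpow_one, zpow_one]

lemma IsL_Ft (hs0 : 0 < s) (hs1 : s < 1) :
    ∃ g : (Fin k → ℤ) → ℂ, IsL (fun z : Fin k → ℂ => Ft s z) g := by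
  obtain ⟨g1, h1⟩ := IsL.prod (univ : Finset (Fin k)) (fun t z => S1 s (z t))
    fun t _ => IsL_S1 hs0 hs1 t
  obtain ⟨g2, h2⟩ := IsL.prod (univ : Finset (Fin k)) (fun t z => ∏ u ∈ Iio t, S2 s (z t) (z u))
    fun t _ => IsL.prod (Iio t) (fun u z => S2 s (z t) (z u)) fun u _ => IsL_S2 hs0 hs1 t u
  exact h1.mul h2

end Ft

section Transf

variable {k : ℕ} {f : (Fin k → ℂ) → ℂ} {g : (Fin k → ℤ) → ℂ}

lemma IsL.perm (h : IsL f g) (σ : Equiv.Perm (Fin k)) :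
    IsL (fun z => f (z ∘ σ)) (fun ν => g (ν ∘ σ)) := by
  intro z hz
  obtain ⟨h1, h2⟩ := h (z ∘ σ) (fun i => hz _)
  set e : (Fin k → ℤ) ≃ (Fin k → ℤ) := Equiv.arrowCongr σ.symm (Equiv.refl ℤ) with he
  have he' : ∀ ν, e ν = ν ∘ σ := by
    intro ν; funext i; simp [he, Equiv.arrowCongr]
  have hm : ∀ ν : Fin k → ℤ, CMPP_M.mon (z ∘ σ) (ν ∘ σ) = CMPP_M.mon z ν := by
    intro ν
    simp only [CMPP_M.mon, Function.comp]
    exact Equiv.prod_comp σ (fun i => z i ^ ν i)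
  constructor
  · refine (e.summable_iff.mpr h1).congr fun ν => ?_
    simp only [Function.comp_apply, he', hm]
  · have h3 := e.hasSum_iff.mpr h2
    have e4 : ((fun μ => g μ * CMPP_M.mon (z ∘ σ) μ) ∘ e) = fun ν => g (ν ∘ σ) * CMPP_M.mon z ν := by
      funext ν
      simp only [Function.comp_apply, he', hm]
    rwa [e4] at h3

lemma IsL.unit (h : IsL f g) (ε : Fin k → ℤˣ) :
    IsL (fun z => f (fun t => z t ^ (ε t : ℤ))) (fun ν => g (fun t => (ε t : ℤ) * ν t)) := by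
  intro z hz
  obtain ⟨h1, h2⟩ := h (fun t => z t ^ (ε t : ℤ)) (fun i => zpow_ne_zero _ (hz _))
  have hεε : ∀ t, ((ε t : ℤ)) * (ε t : ℤ) = 1 := fun t => by
    rcases Int.units_eq_one_or (ε t) with h | h <;> simp [h]
  set e : (Fin k → ℤ) ≃ (Fin k → ℤ) :=
    { toFun := fun ν t => (ε t : ℤ) * ν t
      invFun := fun ν t => (ε t : ℤ) * ν t
      left_inv := fun ν => by funext t; simp only []; rw [← mul_assoc, hεε, one_mul]
      right_inv := fun ν => by funext t; simp only []; rw [← mul_assoc, hεε, one_mul] } with he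
  have hm : ∀ ν : Fin k → ℤ, CMPP_M.mon (fun t => z t ^ (ε t : ℤ)) (fun t => (ε t : ℤ) * ν t)
      = CMPP_M.mon z ν := by
    intro ν
    simp only [CMPP_M.mon]
    refine prod_congr rfl fun t _ => ?_
    rw [← zpow_mul, ← mul_assoc, hεε, one_mul]
  have he' : ∀ ν, e ν = fun t => (ε t : ℤ) * ν t := fun ν => rfl
  constructor
  · refine (e.summable_iff.mpr h1).congr fun ν => ?_
    simp only [Function.comp_apply, he', hm]
  · have h3 := e.hasSum_iff.mpr h2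
    have e4 : ((fun μ => g μ * CMPP_M.mon (fun t => z t ^ (ε t : ℤ)) μ) ∘ e)
        = fun ν => g (fun t => (ε t : ℤ) * ν t) * CMPP_M.mon z ν := by
      funext ν
      simp only [Function.comp_apply, he', hm]
    rwa [e4] at h3

lemma IsL.scale (h : IsL f g) {c : Fin k → ℂ} (hc : ∀ t, c t ≠ 0) :
    IsL (fun z => f (fun t => c t * z t)) (fun ν => CMPP_M.mon c ν * g ν) := by
  intro z hz
  have h0 := h (fun t => c t * z t) (fun i => mul_ne_zero (hc _) (hz _))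
  have hm : ∀ ν : Fin k → ℤ, g ν * CMPP_M.mon (fun t => c t * z t) ν
      = CMPP_M.mon c ν * g ν * CMPP_M.mon z ν := by
    intro ν
    simp only [CMPP_M.mon, mul_zpow, prod_mul_distrib]; ring
  simp only [hm] at h0
  exact h0

lemma IsL.mulmon (h : IsL f g) (c : ℂ) (α : Fin k → ℤ) :
    IsL (fun z => c * CMPP_M.mon z α * f z) (fun ν => c * g (ν - α)) := by
  intro z hz
  obtain ⟨h1, h2⟩ := h z hz
  have hm : ∀ ν : Fin k → ℤ, c * g (ν - α) * CMPP_M.mon z ν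
      = c * CMPP_M.mon z α * (g (ν - α) * CMPP_M.mon z (ν - α)) := by
    intro ν
    have : CMPP_M.mon z ν = CMPP_M.mon z α * CMPP_M.mon z (ν - α) := by
      rw [← mon_add hz]; congr 1; abel
    rw [this]; ring
  constructor
  · have h3 := ((Equiv.subRight α).summable_iff.mpr h1).mul_left ‖c * CMPP_M.mon z α‖
    refine h3.congr fun ν => ?_
    rw [hm ν, norm_mul (c * CMPP_M.mon z α)]
    rfl
  · have h3 := ((Equiv.subRight α).hasSum_iff.mpr h2).mul_left (c * CMPP_M.mon z α)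
    simp only [hm]
    exact h3

lemma IsL.const_mul (h : IsL f g) (c : ℂ) : IsL (fun z => c * f z) (fun ν => c * g ν) := by
  intro z hz
  obtain ⟨h1, h2⟩ := h z hz
  constructor
  · refine (h1.mul_left ‖c‖).congr fun ν => ?_
    rw [mul_assoc, norm_mul c]
  · have h3 := h2.mul_left c
    simpa only [mul_assoc] using h3

end Transf

section Coef

variable {k : ℕ} {s : ℝ} {g : (Fin k → ℤ) → ℂ}

lemma coef_perm (hs0 : 0 < s) (hs1 : s < 1) (h : IsL (fun z : Fin k → ℂ => Ft s z) g)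
    (σ : Equiv.Perm (Fin k)) (ν : Fin k → ℤ) :
    g (ν ∘ σ) = ((Equiv.Perm.sign σ : ℤ) : ℂ) * g ν := by
  have h1 := h.perm σ
  have h2 := (h.const_mul ((Equiv.Perm.sign σ : ℤ) : ℂ)).congr
    fun z hz => (Ft_perm hs0 hs1 hz σ).symm
  exact congrFun (h1.unique h2) ν

lemma coef_unit (hs0 : 0 < s) (hs1 : s < 1) (h : IsL (fun z : Fin k → ℂ => Ft s z) g)
    (ε : Fin k → ℤˣ) (ν : Fin k → ℤ) :
    g (fun t => (ε t : ℤ) * ν t) = (∏ t, ((ε t : ℤ) : ℂ)) * g ν := by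
  have h1 := h.unit ε
  have h2 := (h.const_mul (∏ t, ((ε t : ℤ) : ℂ))).congr
    fun z hz => (Ft_unit hs0 hs1 hz ε).symm
  exact congrFun (h1.unique h2) ν

lemma coef_shift (hs0 : 0 < s) (hs1 : s < 1) (h : IsL (fun z : Fin k → ℂ => Ft s z) g)
    (m : Fin k → ℤ) (ν : Fin k → ℤ) :
    g (fun t => ν t + 2 * (k + 1) * m t)
      = (s : ℂ) ^ (∑ t, (2 * (k + 1) * (m t * m t) + 2 * (m t * ν t))) * g ν := by
  have hs : (s : ℂ) ≠ 0 := by exact_mod_cast hs0.ne'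
  have h1 := h.scale (c := fun t => (s : ℂ) ^ (2 * m t)) (fun t => zpow_ne_zero _ hs)
  have h2 := (h.mulmon ((s : ℂ) ^ (-(∑ t, (2 * (k + 1) * (m t * m t)))))
    (fun t => -(2 * (k + 1) * m t))).congr
    (f' := fun z => Ft s (fun t => (s : ℂ) ^ (2 * m t) * z t)) (fun z hz => by
      rw [Ft_shift hs0 hs1 hz m]
      congr 1
      have e1 : (s : ℂ) ^ (-(∑ t, (2 * ((k : ℤ) + 1) * (m t * m t))))
          = ∏ t, (s : ℂ) ^ (-(2 * ((k : ℤ) + 1) * (m t * m t))) := by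
        rw [← Finset.sum_neg_distrib]
        exact (prod_zpow_sum hs _ _).symm
      rw [e1, mon, ← prod_mul_distrib]
      refine prod_congr rfl fun t _ => ?_
      rw [mul_pow, ← zpow_natCast, ← zpow_natCast, ← zpow_mul, ← zpow_mul]
      congr 2 <;> push_cast <;> ring)
  have h3 := congrFun (h1.unique h2) (fun t => ν t)
  have e2 : ((fun t => ν t) - fun t => -(2 * ((k : ℤ) + 1) * m t)) = fun t => ν t + 2 * (k + 1) * m t := by
    funext t; simp only [Pi.sub_apply]; ring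
  rw [e2] at h3
  have e3 : mon (fun t => (s : ℂ) ^ (2 * m t)) (fun t => ν t) = (s : ℂ) ^ (∑ t, 2 * (m t * ν t)) := by
    rw [mon, ← prod_zpow_sum hs]
    refine prod_congr rfl fun t _ => ?_
    rw [← zpow_mul]; congr 1; ring
  rw [e3] at h3
  rw [Finset.sum_add_distrib, zpow_add₀ hs, mul_assoc, h3, ← mul_assoc, ← zpow_add₀ hs]
  simp

/-- the index set of the sum: signed permutations and translations -/
abbrev Wk (k : ℕ) : Type := Equiv.Perm (Fin k) × (Fin k → ℤˣ) × (Fin k → ℤ)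

/-- the orbit vector -/
def Dv (τ : Wk k) : Fin k → ℤ :=
  fun t => 2 * (k + 1) * τ.2.2 t - (τ.2.1 t : ℤ) * ((τ.1 t : ℕ) + 1)

/-- the sign -/
def sg (τ : Wk k) : ℤ := (Equiv.Perm.sign τ.1 : ℤ) * ∏ t, (τ.2.1 t : ℤ)

/-- the exponent of `s` -/
def ex (τ : Wk k) : ℤ :=
  ∑ t, (2 * (k + 1) * (τ.2.2 t * τ.2.2 t) - 2 * (τ.2.2 t * ((τ.2.1 t : ℤ) * ((τ.1 t : ℕ) + 1))))

/-- the base vector `-(1, ..., k)` -/
def D0 (k : ℕ) : Fin k → ℤ := fun t => -((t : ℕ) + 1)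

lemma coef_Dv (hs0 : 0 < s) (hs1 : s < 1) (h : IsL (fun z : Fin k → ℂ => Ft s z) g) (τ : Wk k) :
    g (Dv τ) = ((sg τ : ℤ) : ℂ) * (s : ℂ) ^ (ex τ) * g (D0 k) := by
  have h1 := coef_shift hs0 hs1 h τ.2.2 (fun t => (τ.2.1 t : ℤ) * (-((τ.1 t : ℕ) + 1)))
  have h2 := coef_unit hs0 hs1 h τ.2.1 (fun t => (-((τ.1 t : ℕ) + 1 : ℤ)))
  have h3 := coef_perm hs0 hs1 h τ.1 (D0 k)
  have e1 : Dv τ = fun t => (τ.2.1 t : ℤ) * (-((τ.1 t : ℕ) + 1)) + 2 * (k + 1) * τ.2.2 t := by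
    funext t; simp only [Dv]; ring
  have e2 : (D0 k) ∘ τ.1 = fun t => (-((τ.1 t : ℕ) + 1 : ℤ)) := by
    funext t; simp [D0]
  have e3 : ex τ = ∑ t, (2 * ((k : ℤ) + 1) * (τ.2.2 t * τ.2.2 t) +
      2 * (τ.2.2 t * ((τ.2.1 t : ℤ) * (-((τ.1 t : ℕ) + 1))))) := by
    refine sum_congr rfl fun t _ => ?_
    ring
  rw [e1, h1, h2, ← e2, h3, ← e3]
  simp only [sg]
  push_cast
  ring

lemma Dv_injective : Function.Injective (Dv (k := k)) := by
  rintro ⟨σ, ε, m⟩ ⟨σ', ε', m'⟩ h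
  have key : ∀ t, m t = m' t ∧ ε t = ε' t ∧ σ t = σ' t := by
    intro t
    have ht := congrFun h t
    simp only [Dv] at ht
    have h1 := (σ t).2
    have h2 := (σ' t).2
    have hK : (0 : ℤ) < (k : ℤ) + 1 := by positivity
    have b1 : ((σ t : ℕ) : ℤ) + 1 ≤ k := by omega
    have b2 : ((σ' t : ℕ) : ℤ) + 1 ≤ k := by omega
    have hm : m t = m' t := by
      by_contra hne
      have habs : (2 * ((k : ℤ) + 1)) * |m t - m' t| ≤ 2 * k := by
        have e : 2 * ((k : ℤ) + 1) * (m t - m' t)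
            = (ε t : ℤ) * ((σ t : ℕ) + 1) - (ε' t : ℤ) * ((σ' t : ℕ) + 1) := by linarith
        have e2 : (2 * ((k : ℤ) + 1)) * |m t - m' t| = |2 * ((k : ℤ) + 1) * (m t - m' t)| := by
          rw [abs_mul, abs_of_pos (show 0 < 2 * ((k : ℤ) + 1) by positivity)]
        rw [e2, e, abs_le]
        rcases Int.units_eq_one_or (ε t) with h | h <;> rcases Int.units_eq_one_or (ε' t) with h' | h' <;>
          simp only [h, h', Units.val_neg, Units.val_one] <;> constructor <;> omega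
      have h3 : 1 ≤ |m t - m' t| := Int.one_le_abs (sub_ne_zero.mpr hne)
      nlinarith
    have hx : (ε t : ℤ) * ((σ t : ℕ) + 1) = (ε' t : ℤ) * ((σ' t : ℕ) + 1) := by
      rw [hm] at ht; linarith
    refine ⟨hm, ?_⟩
    rcases Int.units_eq_one_or (ε t) with h | h <;> rcases Int.units_eq_one_or (ε' t) with h' | h' <;>
      simp only [h, h', Units.val_neg, Units.val_one] at hx
    · exact ⟨by rw [h, h'], Fin.ext (by omega)⟩
    · omega
    · omega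
    · exact ⟨by rw [h, h'], Fin.ext (by omega)⟩
  have a1 : σ = σ' := Equiv.ext fun t => (key t).2.2
  have a2 : ε = ε' := funext fun t => (key t).2.1
  have a3 : m = m' := funext fun t => (key t).1
  rw [a1, a2, a3]

lemma coef_shift_unit (hs0 : 0 < s) (hs1 : s < 1) (h : IsL (fun z : Fin k → ℂ => Ft s z) g)
    (m : Fin k → ℤ) (ε : Fin k → ℤˣ) (ν : Fin k → ℤ)
    (h0 : g ν = 0) : g (fun t => (ε t : ℤ) * ν t + 2 * (k + 1) * m t) = 0 := by
  rw [coef_shift hs0 hs1 h m (fun t => (ε t : ℤ) * ν t), coef_unit hs0 hs1 h, h0]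
  simp

/-- vanishing on the walls `μ_t ≡ 0 mod K` -/
lemma coef_wall (hs0 : 0 < s) (hs1 : s < 1) (h : IsL (fun z : Fin k → ℂ => Ft s z) g)
    (μ : Fin k → ℤ) (t : Fin k) (n : ℤ) (hn : μ t = (k + 1) * n) : g μ = 0 := by
  have h1 := coef_shift hs0 hs1 h (Pi.single t (-n)) μ
  have h2 := coef_unit hs0 hs1 h (Function.update (fun _ => 1) t (-1)) μ
  have e1 : (fun u => μ u + 2 * ((k : ℤ) + 1) * (Pi.single t (-n) : Fin k → ℤ) u)
      = fun u => ((Function.update (fun _ => (1 : ℤˣ)) t (-1) u : ℤˣ) : ℤ) * μ u := by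
    funext u
    by_cases hu : u = t
    · subst hu
      simp only [Pi.single_eq_same, Function.update_self, Units.val_neg, Units.val_one, hn]
      ring
    · simp only [Pi.single_eq_of_ne hu, Function.update_of_ne hu, Units.val_one]
      ring
  have e2 : ∑ u, (2 * ((k : ℤ) + 1) * ((Pi.single t (-n) : Fin k → ℤ) u *
      (Pi.single t (-n) : Fin k → ℤ) u) + 2 * ((Pi.single t (-n) : Fin k → ℤ) u * μ u)) = 0 := by
    rw [sum_eq_single t]
    · simp only [Pi.single_eq_same, hn]; ring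
    · intro b _ hb; simp [Pi.single_eq_of_ne hb]
    · simp
  have e3 : (∏ u, (((Function.update (fun _ => (1 : ℤˣ)) t (-1) u : ℤˣ) : ℤ) : ℂ)) = -1 := by
    rw [prod_eq_single t]
    · simp
    · intro b _ hb; simp [Function.update_of_ne hb]
    · simp
  rw [e1, e2, zpow_zero, one_mul, h2, e3] at h1
  have : (2 : ℂ) * g μ = 0 := by linear_combination (-1 : ℂ) * h1
  simpa using this

lemma coef_eq (hs0 : 0 < s) (hs1 : s < 1) (h : IsL (fun z : Fin k → ℂ => Ft s z) g)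
    (μ : Fin k → ℤ) (t u : Fin k) (htu : t ≠ u) (he : μ t = μ u) : g μ = 0 := by
  have h1 := coef_perm hs0 hs1 h (Equiv.swap t u) μ
  have e1 : μ ∘ (Equiv.swap t u) = μ := by
    funext i
    simp only [Function.comp]
    by_cases h1 : i = t
    · subst h1; rw [Equiv.swap_apply_left, he]
    · by_cases h2 : i = u
      · subst h2; rw [Equiv.swap_apply_right, he]
      · rw [Equiv.swap_apply_of_ne_of_ne h1 h2]
  rw [e1, Equiv.Perm.sign_swap htu] at h1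
  have : (2 : ℂ) * g μ = 0 := by
    simp only [Units.val_neg, Units.val_one, Int.cast_neg, Int.cast_one] at h1
    linear_combination h1
  simpa using this

lemma exists_rep (μ : ℤ) (hμ : ∀ n : ℤ, μ ≠ (k + 1) * n) :
    ∃ (ε : ℤˣ) (m : ℤ) (r : Fin k), μ = 2 * (k + 1) * m - (ε : ℤ) * ((r : ℕ) + 1) := by
  have hK : (0 : ℤ) < 2 * ((k : ℤ) + 1) := by positivity
  set x := μ % (2 * ((k : ℤ) + 1)) with hx
  set q := μ / (2 * ((k : ℤ) + 1)) with hq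
  have h1 : 2 * ((k : ℤ) + 1) * q + x = μ := Int.mul_ediv_add_emod _ _
  have h2 : 0 ≤ x := Int.emod_nonneg _ hK.ne'
  have h3 : x < 2 * ((k : ℤ) + 1) := Int.emod_lt_of_pos _ hK
  have h4 : x ≠ 0 := by
    intro h0
    exact hμ (2 * q) (by rw [← h1, h0]; ring)
  have h5 : x ≠ (k : ℤ) + 1 := by
    intro h0
    exact hμ (2 * q + 1) (by rw [← h1, h0]; ring)
  rcases lt_or_gt_of_ne h5 with h | h
  · refine ⟨-1, q, ⟨(x - 1).toNat, by omega⟩, ?_⟩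
    simp only [Units.val_neg, Units.val_one]
    have : (((x - 1).toNat : ℕ) : ℤ) = x - 1 := Int.toNat_of_nonneg (by omega)
    rw [this]; linarith
  · refine ⟨1, q + 1, ⟨(2 * ((k : ℤ) + 1) - x - 1).toNat, by omega⟩, ?_⟩
    simp only [Units.val_one]
    have : (((2 * ((k : ℤ) + 1) - x - 1).toNat : ℕ) : ℤ) = 2 * ((k : ℤ) + 1) - x - 1 :=
      Int.toNat_of_nonneg (by omega)
    rw [this]; linarith

lemma coef_vanish (hs0 : 0 < s) (hs1 : s < 1) (h : IsL (fun z : Fin k → ℂ => Ft s z) g)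
    (μ : Fin k → ℤ) (hμ : μ ∉ Set.range (Dv (k := k))) : g μ = 0 := by
  by_cases hw : ∃ t, ∃ n : ℤ, μ t = (k + 1) * n
  · obtain ⟨t, n, hn⟩ := hw
    exact coef_wall hs0 hs1 h μ t n hn
  · push Not at hw
    choose ε m r hr using fun t => exists_rep (k := k) (μ t) (hw t)
    by_cases hinj : Function.Injective r
    · exfalso
      apply hμ
      have hb : Function.Bijective r := Finite.injective_iff_bijective.mp hinj
      refine ⟨(Equiv.ofBijective r hb, ε, m), ?_⟩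
      funext t
      simp only [Dv, Equiv.ofBijective_apply]
      exact (hr t).symm
    · simp only [Function.Injective, not_forall] at hinj
      obtain ⟨t, u, htu, hne⟩ := hinj
      have h0 : g (fun t => -((r t : ℕ) + 1 : ℤ)) = 0 :=
        coef_eq hs0 hs1 h _ t u hne (by rw [htu])
      have h1 := coef_shift_unit hs0 hs1 h m ε _ h0
      have e : (fun t => (ε t : ℤ) * (-((r t : ℕ) + 1 : ℤ)) + 2 * ((k : ℤ) + 1) * m t) = μ := by
        funext t; rw [hr t]; ring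
      rwa [e] at h1

/-- **Macdonald identity** for `C_k^{(1)}`, up to the constant `g (D0 k)`. -/
theorem macdonald_up_to_const (hs0 : 0 < s) (hs1 : s < 1)
    (h : IsL (fun z : Fin k → ℂ => Ft s z) g) {z : Fin k → ℂ} (hz : NZ z) :
    HasSum (fun τ : Wk k => g (D0 k) * (((sg τ : ℤ) : ℂ) * (s : ℂ) ^ (ex τ) * mon z (Dv τ)))
      (Ft s z) := by
  have h1 := (h z hz).2
  rw [← Function.Injective.hasSum_iff (Dv_injective (k := k)) (fun μ hμ => by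
    rw [coef_vanish hs0 hs1 h μ hμ, zero_mul])] at h1
  refine h1.congr_fun ?_
  intro τ
  simp only [Function.comp_apply, coef_Dv hs0 hs1 h τ]
  ring

end Coef

end Pool.Agent.CMPP_M
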