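import Pool.Agent.Lib_helper89.Mac.JTP

set_option autoImplicit false
set_option linter.unusedSectionVars false

open Finset Filter Topology

namespace Pool.Agent.CMPP_M

/-- `(q^a; q^N)_∞` -/
noncomputable def E (q : ℝ) (a N : ℕ) : ℝ := ∏' j : ℕ, (1 - q ^ (a + N * j))

section E

variable {q : ℝ}

lemma summable_pow_ap (hq0 : 0 < q) (hq1 : q < 1) (a : ℕ) {N : ℕ} (hN : 1 ≤ N) :
    Summable (fun j : ℕ => q ^ (a + N * j)) := by
  have h := summable_geometric_of_lt_one (r := q ^ N) (by positivity)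
    (pow_lt_one₀ hq0.le hq1 (by omega))
  refine (h.mul_left (q ^ a)).congr fun j => ?_
  rw [← pow_mul, ← pow_add]

lemma E_hasProd (hq0 : 0 < q) (hq1 : q < 1) (a : ℕ) {N : ℕ} (hN : 1 ≤ N) :
    HasProd (fun j : ℕ => (1 - q ^ (a + N * j))) (E q a N) := by
  have h := (Real.multipliable_one_add_of_summable (summable_pow_ap hq0 hq1 a hN).neg).hasProd
  simpa [E, sub_eq_add_neg] using h

lemma fac_pos' (hq0 : 0 < q) (hq1 : q < 1) {a : ℕ} (ha : 1 ≤ a) (N j : ℕ) :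
    0 < 1 - q ^ (a + N * j) := by
  have : q ^ (a + N * j) < 1 := pow_lt_one₀ hq0.le hq1 (by omega)
  linarith

lemma E_pos (hq0 : 0 < q) (hq1 : q < 1) {a N : ℕ} (ha : 1 ≤ a) (hN : 1 ≤ N) : 0 < E q a N := by
  have h1 : Summable (fun j : ℕ => Real.log (1 + (-q ^ (a + N * j)))) :=
    Real.summable_log_one_add_of_summable (summable_pow_ap hq0 hq1 a hN).neg
  have h2 := Real.rexp_tsum_eq_tprod (f := fun j : ℕ => (1 + (-q ^ (a + N * j))))
    (fun j => by have := fac_pos' hq0 hq1 ha N j; simpa [sub_eq_add_neg] using this) h1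
  have h3 : E q a N = ∏' j : ℕ, (1 + (-q ^ (a + N * j))) := by simp [E, sub_eq_add_neg]
  rw [h3, ← h2]
  exact Real.exp_pos _

/-- splitting into residue classes -/
lemma E_split (hq0 : 0 < q) (hq1 : q < 1) (a : ℕ) {N : ℕ} (hN : 1 ≤ N) {d : ℕ} (hd : 1 ≤ d) :
    E q a N = ∏ i ∈ range d, E q (a + N * i) (N * d) := by
  have : NeZero d := ⟨by omega⟩
  have h1 := E_hasProd hq0 hq1 a hN
  have h2 := ((Equiv.prodComm (Fin d) ℕ).trans (Nat.divModEquiv d).symm).hasProd_iff.mpr h1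
  have hNd : 1 ≤ N * d := Nat.mul_pos hN hd
  have h3 : HasProd (fun i : Fin d => E q (a + N * i) (N * d)) (E q a N) := by
    refine h2.prod_fiberwise fun i => ?_
    have h4 := E_hasProd hq0 hq1 (a + N * i) hNd
    refine h4.congr_fun ?_
    intro j
    simp only [Function.comp_apply, Equiv.trans_apply, Equiv.prodComm_apply, Prod.swap_prod_mk,
      Nat.divModEquiv_symm_apply]
    congr 2
    ring
  have h5 := h3.unique (hasProd_fintype _)
  rw [h5, Fin.prod_univ_eq_prod_range (fun i => E q (a + N * i) (N * d)) d]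

end E

section Algebra

lemma prod_zmod (N : ℕ) [NeZero N] (g : ZMod N → ℝ) :
    ∏ x : ZMod N, g x = ∏ i ∈ range N, g (i : ZMod N) := by
  obtain ⟨m, hm⟩ : ∃ m, N = m + 1 := ⟨N - 1, by have := NeZero.ne N; omega⟩
  subst hm
  rw [← Fin.prod_univ_eq_prod_range (fun i : ℕ => g ((i : ℕ) : ZMod (m + 1))) (m + 1)]
  refine prod_congr rfl fun x _ => ?_
  congr 1
  exact (ZMod.natCast_zmod_val (n := m + 1) x).symm

variable {M : ℕ} [NeZero (2 * M)]

/-- the full set `{1, ..., M-1}` -/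
def U (M : ℕ) : Finset ℕ := Icc 1 (M - 1)

lemma prod_split (hM : 1 ≤ M) (g : ℕ → ℝ) :
    ∏ i ∈ range (2 * M), g i = g 0 * g M * (∏ i ∈ U M, g i) * ∏ i ∈ U M, g (2 * M - i) := by
  have h1 : range (2 * M) = insert 0 (insert M (U M ∪ (U M).image (fun i => 2 * M - i))) := by
    ext i
    simp only [U, mem_range, mem_insert, mem_union, mem_image, mem_Icc]
    constructor
    · intro hi
      rcases Nat.eq_zero_or_pos i with h | h
      · exact Or.inl h
      · rcases lt_trichotomy i M with h' | h' | h'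
        · right; right; left; omega
        · right; left; exact h'
        · right; right; right; exact ⟨2 * M - i, by omega, by omega⟩
    · rintro (h | h | h | ⟨j, hj, h⟩) <;> omega
  rw [h1, prod_insert, prod_insert, prod_union, prod_image]
  · ring
  · intro a ha b hb hab
    simp only [U, coe_Icc, Set.mem_Icc] at ha hb
    simp only at hab
    omega
  · rw [disjoint_left]
    intro a ha hb
    simp only [U, mem_image, mem_Icc] at ha hb
    obtain ⟨b, hb, hab⟩ := hb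
    omega
  · simp only [U, mem_union, mem_image, mem_Icc, not_or, not_exists, not_and]
    constructor
    · omega
    · intro x hx; omega
  · simp only [U, mem_insert, mem_union, mem_image, mem_Icc, not_or, not_exists, not_and]
    refine ⟨by omega, by omega, ?_⟩
    intro x hx; omega

section GenN

variable {N : ℕ} (F : ZMod N → ℝ)

/-- pair factor, set to `1` on the diagonal -/
noncomputable def hh (a b : ℕ) : ℝ :=
  if a = b then 1 else F ((a : ZMod N) - b) * F ((a : ZMod N) + b)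

variable {F}

lemma hh_symm (hev : ∀ x, F (-x) = F x) (a b : ℕ) : hh F a b = hh F b a := by
  unfold hh
  by_cases h : a = b
  · simp [h]
  · rw [if_neg h, if_neg (Ne.symm h), ← hev ((a : ZMod N) - b), neg_sub, add_comm]

lemma hh_pos (hpos : ∀ x, 0 < F x) (a b : ℕ) : 0 < hh F a b := by
  unfold hh
  split_ifs
  · exact one_pos
  · exact mul_pos (hpos _) (hpos _)

/-- `∏_{a ∈ X} ∏_{b ∈ X, b < a} F(a-b) F(a+b)` -/
noncomputable def Psi (F : ZMod N → ℝ) (X : Finset ℕ) : ℝ :=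
  ∏ a ∈ X, ∏ b ∈ X with b < a, hh F a b

lemma Psi_sq (hev : ∀ x, F (-x) = F x) (X : Finset ℕ) :
    Psi F X ^ 2 = ∏ a ∈ X, ∏ b ∈ X, hh F a b := by
  have h1 : ∀ a ∈ X, ∏ b ∈ X, hh F a b
      = (∏ b ∈ X with b < a, hh F a b) * ∏ b ∈ X with a < b, hh F a b := by
    intro a _
    rw [prod_filter, prod_filter, ← prod_mul_distrib]
    refine prod_congr rfl fun b _ => ?_
    rcases lt_trichotomy a b with h | h | h
    · simp [h, h.le]
    · subst h; simp [hh]
    · simp [h, h.le]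
  rw [prod_congr rfl h1, prod_mul_distrib, pow_two]
  congr 1
  rw [Psi]
  simp only [prod_filter]
  rw [Finset.prod_comm]
  refine prod_congr rfl fun a _ => prod_congr rfl fun b _ => ?_
  split_ifs
  · exact hh_symm hev _ _
  · rfl

/-- `∏_{a ∈ X} F(2a) · Ψ(X)` -/
noncomputable def Phi (F : ZMod N → ℝ) (X : Finset ℕ) : ℝ :=
  (∏ a ∈ X, F ((2 * a : ℕ) : ZMod N)) * Psi F X

lemma Psi_pos (hpos : ∀ x, 0 < F x) (X : Finset ℕ) : 0 < Psi F X :=
  prod_pos fun a _ => prod_pos fun b _ => hh_pos hpos _ _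

lemma Phi_pos (hpos : ∀ x, 0 < F x) (X : Finset ℕ) : 0 < Phi F X :=
  mul_pos (prod_pos fun _ _ => hpos _) (Psi_pos hpos X)

/-- `Phi` of the image of a strictly increasing sequence -/
lemma Phi_image {k : ℕ} (v : Fin k → ℕ) (hv : StrictMono v) :
    Phi F (univ.image v) = (∏ t, F ((2 * v t : ℕ) : ZMod N)) *
      ∏ t, ∏ u ∈ Iio t, F ((v t : ZMod N) - v u) * F ((v t : ZMod N) + v u) := by
  rw [Phi, Psi, prod_image (fun a _ b _ h => hv.injective h),
    prod_image (fun a _ b _ h => hv.injective h)]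
  congr 1
  refine prod_congr rfl fun t _ => ?_
  have h1 : (univ.image v).filter (fun b => b < v t) = (Iio t).image v := by
    ext b
    simp only [mem_filter, mem_image, mem_univ, true_and, mem_Iio]
    constructor
    · rintro ⟨⟨u, rfl⟩, h⟩; exact ⟨u, hv.lt_iff_lt.mp h, rfl⟩
    · rintro ⟨u, h, rfl⟩; exact ⟨⟨u, rfl⟩, hv.lt_iff_lt.mpr h⟩
  rw [h1, prod_image (fun a _ b _ h => hv.injective h)]
  refine prod_congr rfl fun u hu => ?_
  rw [hh, if_neg (hv (mem_Iio.mp hu)).ne']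

end GenN

variable {F : ZMod (2 * M) → ℝ}

lemma two_M_cast : ((2 * M : ℕ) : ZMod (2 * M)) = 0 := ZMod.natCast_self _

/-- total product -/
noncomputable def GG (F : ZMod (2 * M) → ℝ) : ℝ := ∏ x : ZMod (2 * M), F x

lemma cast_sub_reflect {u : ℕ} (hu : u ∈ U M) : ((2 * M - u : ℕ) : ZMod (2 * M)) = -(u : ZMod (2 * M)) := by
  simp only [U, mem_Icc] at hu
  rw [Nat.cast_sub (by omega), two_M_cast, zero_sub]

lemma prod_U_hh (hM : 1 ≤ M) (hev : ∀ x, F (-x) = F x) (h0 : F 0 = 1) {b : ℕ} (hb : b ∈ U M) :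
    (∏ u ∈ U M, hh F u b) * (F (b : ZMod (2 * M)) * F ((M - b : ℕ) : ZMod (2 * M)) *
      F ((2 * b : ℕ) : ZMod (2 * M))) = GG F := by
  have hbM : 1 ≤ b ∧ b ≤ M - 1 := by simpa [U] using hb
  have h1 : GG F = ∏ x : ZMod (2 * M), F (x - b) := by
    rw [GG]; exact (Equiv.prod_comp (Equiv.subRight (b : ZMod (2 * M))) F).symm
  rw [h1, prod_zmod, prod_split hM (fun i => F ((i : ZMod (2 * M)) - b))]
  have h2 : ∏ i ∈ U M, F (((2 * M - i : ℕ) : ZMod (2 * M)) - b)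
      = ∏ i ∈ U M, F ((i : ZMod (2 * M)) + b) := by
    refine prod_congr rfl fun i hi => ?_
    rw [cast_sub_reflect hi, ← hev, neg_sub, sub_neg_eq_add, add_comm]
  rw [h2]
  have h3 : F (((0 : ℕ) : ZMod (2 * M)) - b) = F (b : ZMod (2 * M)) := by
    rw [Nat.cast_zero, zero_sub, hev]
  have h4 : F ((M : ZMod (2 * M)) - b) = F ((M - b : ℕ) : ZMod (2 * M)) := by
    rw [Nat.cast_sub (by omega)]
  have h5 : (∏ i ∈ U M, F ((i : ZMod (2 * M)) - b)) * ∏ i ∈ U M, F ((i : ZMod (2 * M)) + b)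
      = (∏ u ∈ U M, hh F u b) * F ((2 * b : ℕ) : ZMod (2 * M)) := by
    rw [← prod_mul_distrib, ← mul_prod_erase _ _ hb, ← mul_prod_erase _ (fun u => hh F u b) hb]
    have h6 : hh F b b = 1 := by simp [hh]
    have h7 : F ((b : ZMod (2 * M)) - b) * F ((b : ZMod (2 * M)) + b)
        = F ((2 * b : ℕ) : ZMod (2 * M)) := by
      rw [sub_self, h0, one_mul]; congr 1; push_cast; ring
    rw [h6, h7]
    have h8 : ∏ x ∈ (U M).erase b, F ((x : ZMod (2 * M)) - b) * F ((x : ZMod (2 * M)) + b)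
        = ∏ x ∈ (U M).erase b, hh F x b := by
      refine prod_congr rfl fun x hx => ?_
      rw [hh, if_neg (ne_of_mem_erase hx)]
    rw [h8]; ring
  rw [h3, h4]
  calc _ = F (b : ZMod (2 * M)) * F ((M - b : ℕ) : ZMod (2 * M)) *
      ((∏ u ∈ U M, hh F u b) * F ((2 * b : ℕ) : ZMod (2 * M))) := by ring
    _ = _ := by rw [← h5]; ring

lemma GG_pos (hpos : ∀ x, 0 < F x) : 0 < GG F := prod_pos fun x _ => hpos x

/-- the complementation identity, squared form -/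
lemma Phi_sq (hM : 1 ≤ M) (hev : ∀ x, F (-x) = F x) (h0 : F 0 = 1) (hpos : ∀ x, 0 < F x)
    {A B : Finset ℕ} (hAB : Disjoint A B) (hU : A ∪ B = U M) :
    Phi F A ^ 2 * GG F ^ #B = GG F ^ #A *
      (∏ u ∈ U M, F ((2 * u : ℕ) : ZMod (2 * M)) / (F (u : ZMod (2 * M)) * F ((M - u : ℕ) : ZMod (2 * M)))) *
      ((∏ b ∈ B, F (b : ZMod (2 * M)) * F ((M - b : ℕ) : ZMod (2 * M))) * Psi F B) ^ 2 := by
  classical
  set f1 : ℕ → ℝ := fun u => F (u : ZMod (2 * M)) * F ((M - u : ℕ) : ZMod (2 * M)) with hf1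
  set f2 : ℕ → ℝ := fun u => F ((2 * u : ℕ) : ZMod (2 * M)) with hf2
  have p1 : ∀ u, 0 < f1 u := fun u => mul_pos (hpos _) (hpos _)
  have p2 : ∀ u, 0 < f2 u := fun u => hpos _
  have hG := GG_pos hpos
  have hΓ : ∀ b ∈ U M, ∏ u ∈ U M, hh F u b = GG F / (f1 b * f2 b) := by
    intro b hb
    rw [eq_div_iff (mul_pos (p1 b) (p2 b)).ne']
    have := prod_U_hh hM hev h0 hb
    simpa only [hf1, hf2] using this
  have hAU : A ⊆ U M := by rw [← hU]; exact subset_union_left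
  have hBU : B ⊆ U M := by rw [← hU]; exact subset_union_right
  -- P(U,B)
  have hB1 : (∏ b ∈ B, ∏ a ∈ A, hh F a b) * (∏ b ∈ B, ∏ b' ∈ B, hh F b' b)
      = ∏ b ∈ B, GG F / (f1 b * f2 b) := by
    rw [← prod_mul_distrib]
    refine prod_congr rfl fun b hb => ?_
    rw [← hΓ b (hBU hb), ← hU, prod_union hAB]
  have hA1 : (∏ a ∈ A, ∏ a' ∈ A, hh F a' a) * (∏ a ∈ A, ∏ b ∈ B, hh F b a)
      = ∏ a ∈ A, GG F / (f1 a * f2 a) := by
    rw [← prod_mul_distrib]
    refine prod_congr rfl fun a ha => ?_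
    rw [← hΓ a (hAU ha), ← hU, prod_union hAB]
  have hsw : (∏ b ∈ B, ∏ a ∈ A, hh F a b) = ∏ a ∈ A, ∏ b ∈ B, hh F b a := by
    rw [Finset.prod_comm]
    exact prod_congr rfl fun a _ => prod_congr rfl fun b _ => hh_symm hev _ _
  have hsA : (∏ a ∈ A, ∏ a' ∈ A, hh F a' a) = Psi F A ^ 2 := by
    rw [Psi_sq hev]
    exact prod_congr rfl fun a _ => prod_congr rfl fun b _ => hh_symm hev _ _
  have hsB : (∏ a ∈ B, ∏ a' ∈ B, hh F a' a) = Psi F B ^ 2 := by
    rw [Psi_sq hev]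
    exact prod_congr rfl fun a _ => prod_congr rfl fun b _ => hh_symm hev _ _
  rw [hsB] at hB1
  rw [hsA, ← hsw] at hA1
  set X := ∏ b ∈ B, ∏ a ∈ A, hh F a b with hX
  have hXpos : 0 < X := by
    rw [hX]
    exact prod_pos fun a _ => prod_pos fun b _ => by
      unfold hh
      split_ifs
      · exact one_pos
      · exact mul_pos (hpos _) (hpos _)
  have pA1 : 0 < ∏ a ∈ A, f1 a := prod_pos fun _ _ => p1 _
  have pA2 : 0 < ∏ a ∈ A, f2 a := prod_pos fun _ _ => p2 _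
  have pB1 : 0 < ∏ a ∈ B, f1 a := prod_pos fun _ _ => p1 _
  have pB2 : 0 < ∏ a ∈ B, f2 a := prod_pos fun _ _ => p2 _
  rw [prod_div_distrib, prod_const, prod_mul_distrib] at hA1 hB1
  have hA2 : Psi F A ^ 2 * X * ((∏ a ∈ A, f1 a) * ∏ a ∈ A, f2 a) = GG F ^ #A := by
    rw [hA1]; field_simp
  have hB2 : X * Psi F B ^ 2 * ((∏ a ∈ B, f1 a) * ∏ a ∈ B, f2 a) = GG F ^ #B := by
    rw [hB1]; field_simp
  have hUf : ∏ u ∈ U M, f2 u / f1 u = (∏ a ∈ A, f2 a) * (∏ a ∈ B, f2 a) /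
      ((∏ a ∈ A, f1 a) * (∏ a ∈ B, f1 a)) := by
    rw [prod_div_distrib, ← hU, prod_union hAB, prod_union hAB]
  have goal' : Phi F A ^ 2 * GG F ^ #B = GG F ^ #A * (∏ u ∈ U M, f2 u / f1 u) *
      ((∏ b ∈ B, f1 b) * Psi F B) ^ 2 := by
    rw [hUf, ← hA2, ← hB2, Phi]
    change ((∏ a ∈ A, f2 a) * Psi F A) ^ 2 * _ = _
    field_simp
  simpa only [hf1, hf2] using goal'

end Algebra

section Concrete

variable {q : ℝ}

lemma prod_Icc_one (g : ℕ → ℝ) (m : ℕ) : ∏ u ∈ Icc 1 m, g u = ∏ i ∈ range m, g (i + 1) := by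
  induction m with
  | zero => simp
  | succ m ih => rw [prod_Icc_succ_top (by omega), ih, prod_range_succ]

/-- the even function on `ZMod N` built from the products `E` -/
noncomputable def FE (q : ℝ) (N : ℕ) (x : ZMod N) : ℝ :=
  if x = 0 then 1 else E q x.val N * E q (-x).val N

lemma FE_even {N : ℕ} (x : ZMod N) : FE q N (-x) = FE q N x := by
  unfold FE
  by_cases h : x = 0
  · simp [h]
  · rw [if_neg h, if_neg (neg_ne_zero.mpr h), neg_neg, mul_comm]

lemma FE_zero {N : ℕ} : FE q N 0 = 1 := by simp [FE]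

lemma FE_pos {N : ℕ} [NeZero N] (hq0 : 0 < q) (hq1 : q < 1) (x : ZMod N) : 0 < FE q N x := by
  unfold FE
  split_ifs with h
  · exact one_pos
  · have h2M : 1 ≤ N := Nat.one_le_iff_ne_zero.mpr (NeZero.ne _)
    have h1 : 1 ≤ x.val := Nat.one_le_iff_ne_zero.mpr (by simpa [ZMod.val_eq_zero] using h)
    have h3 : 1 ≤ (-x).val := Nat.one_le_iff_ne_zero.mpr (by simpa [ZMod.val_eq_zero] using h)
    exact mul_pos (E_pos hq0 hq1 h1 h2M) (E_pos hq0 hq1 h3 h2M)

lemma FE_nat {N : ℕ} {a : ℕ} (ha : 1 ≤ a) (ha' : a < N) :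
    FE q N ((a : ℕ) : ZMod N) = E q a N * E q (N - a) N := by
  have h1 : ((a : ℕ) : ZMod N).val = a := ZMod.val_natCast_of_lt ha'
  have h2 : ((a : ℕ) : ZMod N) ≠ 0 := by
    intro h
    have := congrArg ZMod.val h
    rw [h1, ZMod.val_zero] at this
    omega
  have h3 : (-((a : ℕ) : ZMod N)) = ((N - a : ℕ) : ZMod N) := by
    rw [Nat.cast_sub ha'.le, ZMod.natCast_self, zero_sub]
  rw [FE, if_neg h2, h1, h3, ZMod.val_natCast_of_lt (by omega)]

lemma FE_add {N : ℕ} {a b : ℕ} (ha : 1 ≤ a) (h : a + b < N) :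
    FE q N ((a : ZMod N) + b) = E q (a + b) N * E q (N - (a + b)) N := by
  rw [← Nat.cast_add, FE_nat (by omega) h]

lemma FE_sub {N : ℕ} {a b : ℕ} (hab : b < a) (ha : a < N) :
    FE q N ((a : ZMod N) - b) = E q (a - b) N * E q (N - (a - b)) N := by
  rw [← Nat.cast_sub hab.le, FE_nat (by omega) (by omega)]

/-- `R_N = (q;q)/(q^N;q^N)`, the product of `E` over all nonzero residues -/
noncomputable def RR (q : ℝ) (N : ℕ) : ℝ := E q 1 1 / E q N N

lemma RR_pos {N : ℕ} (hN : 1 ≤ N) (hq0 : 0 < q) (hq1 : q < 1) : 0 < RR q N :=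
  div_pos (E_pos hq0 hq1 le_rfl le_rfl) (E_pos hq0 hq1 hN hN)

lemma RR_eq {N : ℕ} (hN : 1 ≤ N) (hq0 : 0 < q) (hq1 : q < 1) :
    ∏ i ∈ Icc 1 (N - 1), E q i N = RR q N := by
  have h1 := E_split hq0 hq1 1 (N := 1) le_rfl hN
  obtain ⟨m, rfl⟩ : ∃ m, N = m + 1 := ⟨N - 1, by omega⟩
  have hp := (E_pos hq0 hq1 hN hN).ne'
  rw [RR, h1, prod_range_succ]
  have h2 : E q (1 + 1 * m) (1 * (m + 1)) = E q (m + 1) (m + 1) := by congr 1 <;> ring
  rw [h2, mul_div_assoc, div_self hp, mul_one, Nat.add_sub_cancel, prod_Icc_one]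
  refine prod_congr rfl fun i _ => ?_
  congr 1 <;> ring

/-- product over all of `ZMod N` -/
lemma GG_FE {N : ℕ} [NeZero N] (hq0 : 0 < q) (hq1 : q < 1) :
    ∏ x : ZMod N, FE q N x = RR q N ^ 2 := by
  have hN : 1 ≤ N := Nat.one_le_iff_ne_zero.mpr (NeZero.ne _)
  obtain ⟨m, hm⟩ : ∃ m, N = m + 1 := ⟨N - 1, by omega⟩
  rw [prod_zmod, pow_two, ← RR_eq hN hq0 hq1]
  have h1 : ∏ i ∈ range N, FE q N (i : ZMod N) = ∏ i ∈ Icc 1 (N - 1), FE q N (i : ZMod N) := by
    rw [hm, prod_range_succ', Nat.add_sub_cancel, prod_Icc_one, Nat.cast_zero, ← hm, FE_zero, mul_one]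
  rw [h1]
  have h2 : ∀ i ∈ Icc 1 (N - 1), FE q N (i : ZMod N) = E q i N * E q (N - i) N := by
    intro i hi
    rw [mem_Icc] at hi
    exact FE_nat hi.1 (by omega)
  rw [prod_congr rfl h2, prod_mul_distrib]
  congr 1
  refine prod_bij' (fun u _ => N - u) (fun u _ => N - u) ?_ ?_ ?_ ?_ ?_ <;>
    simp only [mem_Icc] <;> intros <;> first | omega | trivial

lemma prod_U_E {M : ℕ} (hM : 1 ≤ M) (hq0 : 0 < q) (hq1 : q < 1) :
    (∏ u ∈ U M, E q (2 * u) (2 * M)) * E q (2 * M) (2 * M) = E q 2 2 := by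
  obtain ⟨m, rfl⟩ : ∃ m, M = m + 1 := ⟨M - 1, by omega⟩
  rw [E_split hq0 hq1 2 (N := 2) (by norm_num) hM, prod_range_succ, U, Nat.add_sub_cancel,
    prod_Icc_one]
  congr 1
  · refine prod_congr rfl fun i _ => ?_
    congr 1; ring
  · congr 1; ring

variable {M : ℕ} [NeZero (2 * M)]

lemma prod_reflect_U (g : ℕ → ℝ) : ∏ u ∈ U M, g (M - u) = ∏ u ∈ U M, g u := by
  refine prod_bij' (fun u _ => M - u) (fun u _ => M - u) ?_ ?_ ?_ ?_ ?_ <;>
    simp only [U, mem_Icc] <;> intros <;> first | omega | trivial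

lemma FE_M (hM : 1 ≤ M) : FE q (2 * M) ((M : ℕ) : ZMod (2 * M)) = E q M (2 * M) ^ 2 := by
  rw [FE_nat hM (by omega), pow_two]
  congr 2; omega

lemma prod_rho (hM : 1 ≤ M) (hq0 : 0 < q) (hq1 : q < 1) :
    ∏ u ∈ U M, FE q (2 * M) ((2 * u : ℕ) : ZMod (2 * M)) /
      (FE q (2 * M) (u : ZMod (2 * M)) * FE q (2 * M) ((M - u : ℕ) : ZMod (2 * M)))
      = (E q M (2 * M) / E q 1 2) ^ 2 := by
  have hG := GG_FE (N := 2 * M) hq0 hq1
  rw [prod_zmod, prod_split hM (fun i => FE q (2 * M) (i : ZMod (2 * M)))] at hG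
  have h1 : ∏ i ∈ U M, FE q (2 * M) ((2 * M - i : ℕ) : ZMod (2 * M))
      = ∏ i ∈ U M, FE q (2 * M) (i : ZMod (2 * M)) := by
    refine prod_congr rfl fun i hi => ?_
    rw [cast_sub_reflect hi, FE_even]
  rw [h1, Nat.cast_zero, FE_zero, one_mul, FE_M hM] at hG
  rw [prod_div_distrib, prod_mul_distrib,
    prod_reflect_U (fun u => FE q (2 * M) ((u : ℕ) : ZMod (2 * M)))]
  have h2 : ∏ u ∈ U M, FE q (2 * M) ((2 * u : ℕ) : ZMod (2 * M))
      = (∏ u ∈ U M, E q (2 * u) (2 * M)) ^ 2 := by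
    have e1 : ∀ u ∈ U M, FE q (2 * M) ((2 * u : ℕ) : ZMod (2 * M))
        = E q (2 * u) (2 * M) * E q (2 * (M - u)) (2 * M) := by
      intro u hu
      simp only [U, mem_Icc] at hu
      rw [FE_nat (by omega) (by omega)]
      congr 2; omega
    rw [prod_congr rfl e1, prod_mul_distrib, pow_two,
      prod_reflect_U (fun u => E q (2 * u) (2 * M))]
  rw [h2]
  have h3 := prod_U_E hM hq0 hq1
  have h4 : E q 1 1 = E q 1 2 * E q 2 2 := by
    rw [E_split hq0 hq1 1 (N := 1) le_rfl (d := 2) (by norm_num), prod_range_succ, prod_range_one]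
  have p1 := E_pos hq0 hq1 (a := 1) (N := 1) le_rfl le_rfl
  have p2 := E_pos hq0 hq1 (a := 2) (N := 2) (by norm_num) (by norm_num)
  have p3 := E_pos hq0 hq1 (a := 1) (N := 2) (by norm_num) (by norm_num)
  have p4 := E_pos hq0 hq1 (a := 2 * M) (N := 2 * M) (by omega) (by omega)
  have p5 := E_pos hq0 hq1 (a := M) (N := 2 * M) (by omega) (by omega)
  have p6 : 0 < ∏ i ∈ U M, FE q (2 * M) (i : ZMod (2 * M)) := prod_pos fun _ _ => FE_pos hq0 hq1 _
  set X := ∏ i ∈ U M, FE q (2 * M) (i : ZMod (2 * M)) with hX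
  set Y := ∏ u ∈ U M, E q (2 * u) (2 * M) with hY
  rw [RR] at hG
  have h5 : X * X = (E q 1 1 / E q (2 * M) (2 * M)) ^ 2 / E q M (2 * M) ^ 2 := by
    rw [← hG]; field_simp
  have h6 : Y = E q 2 2 / E q (2 * M) (2 * M) := by
    rw [← h3]; field_simp
  rw [h5, h6, h4]
  field_simp

lemma FE_T (hq0 : 0 < q) (hq1 : q < 1) {b : ℕ} (hb : b ∈ U M) :
    FE q (2 * M) (b : ZMod (2 * M)) * FE q (2 * M) ((M - b : ℕ) : ZMod (2 * M))
      = E q b M * E q (M - b) M := by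
  simp only [U, mem_Icc] at hb
  rw [FE_nat (by omega) (by omega), FE_nat (by omega) (by omega),
    E_split hq0 hq1 b (N := M) (by omega) (d := 2) (by norm_num),
    E_split hq0 hq1 (M - b) (N := M) (by omega) (d := 2) (by norm_num),
    prod_range_succ, prod_range_one, prod_range_succ, prod_range_one]
  have e1 : b + M * 0 = b := by ring
  have e2 : M - b + M * 0 = M - b := by ring
  have e3 : b + M * 1 = 2 * M - (M - b) := by omega
  have e4 : M - b + M * 1 = 2 * M - b := by omega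
  rw [e1, e2, e3, e4, mul_comm M 2]
  ring

/-- the complementation identity -/
theorem Phi_complement (hM : 1 ≤ M) (hq0 : 0 < q) (hq1 : q < 1)
    {A B : Finset ℕ} (hAB : Disjoint A B) (hU : A ∪ B = U M) :
    Phi (FE q (2 * M)) A * RR q (2 * M) ^ #B = RR q (2 * M) ^ #A *
      (E q M (2 * M) / E q 1 2) *
      ((∏ b ∈ B, E q b M * E q (M - b) M) * Psi (FE q (2 * M)) B) := by
  have hpos : ∀ x, 0 < FE q (2 * M) x := fun x => FE_pos hq0 hq1 x
  have h := Phi_sq hM FE_even FE_zero hpos hAB hU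
  rw [GG, GG_FE hq0 hq1, prod_rho hM hq0 hq1] at h
  have hBU : B ⊆ U M := by rw [← hU]; exact subset_union_right
  have h1 : ∏ b ∈ B, FE q (2 * M) (b : ZMod (2 * M)) * FE q (2 * M) ((M - b : ℕ) : ZMod (2 * M))
      = ∏ b ∈ B, E q b M * E q (M - b) M :=
    prod_congr rfl fun b hb => FE_T hq0 hq1 (hBU hb)
  rw [h1] at h
  have hR := RR_pos (q := q) (N := 2 * M) (by omega) hq0 hq1
  have p3 := E_pos hq0 hq1 (a := 1) (N := 2) (by norm_num) (by norm_num)
  have p5 := E_pos hq0 hq1 (a := M) (N := 2 * M) (by omega) (by omega)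
  have p6 : 0 < ∏ b ∈ B, E q b M * E q (M - b) M := by
    refine prod_pos fun b hb => ?_
    have := hBU hb
    simp only [U, mem_Icc] at this
    exact mul_pos (E_pos hq0 hq1 (by omega) hM) (E_pos hq0 hq1 (by omega) hM)
  have p7 := Psi_pos hpos B
  have p8 : 0 < Phi (FE q (2 * M)) A := mul_pos (prod_pos fun _ _ => hpos _) (Psi_pos hpos A)
  have e : (Phi (FE q (2 * M)) A * RR q (2 * M) ^ #B) ^ 2 = (RR q (2 * M) ^ #A *
      (E q M (2 * M) / E q 1 2) *
      ((∏ b ∈ B, E q b M * E q (M - b) M) * Psi (FE q (2 * M)) B)) ^ 2 := by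
    calc _ = Phi (FE q (2 * M)) A ^ 2 * (RR q (2 * M) ^ 2) ^ #B := by ring
      _ = _ := by rw [h]; ring
  exact (pow_left_inj₀ (by positivity) (by positivity) two_ne_zero).mp e

end Concrete

end Pool.Agent.CMPP_M
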