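import Mathlib

set_option autoImplicit false

open Finset Filter Topology

namespace Pool.Agent.CMPP_M

/-- `Q s n = ∏_{j<n} (1 - s^{2(j+1)})`. -/
noncomputable def Q (s : ℝ) (n : ℕ) : ℝ := ∏ j ∈ range n, (1 - s ^ (2 * (j + 1)))

lemma Q_zero (s : ℝ) : Q s 0 = 1 := by simp [Q]

lemma Q_succ (s : ℝ) (n : ℕ) : Q s (n + 1) = Q s n * (1 - s ^ (2 * (n + 1))) := by
  simp [Q, prod_range_succ]

lemma fac_pos {s : ℝ} (hs0 : 0 < s) (hs1 : s < 1) (j : ℕ) : 0 < 1 - s ^ (2 * (j + 1)) := by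
  have : s ^ (2 * (j + 1)) < 1 := pow_lt_one₀ hs0.le hs1 (by omega)
  linarith

lemma fac_le {s : ℝ} (hs0 : 0 < s) (j : ℕ) : 1 - s ^ (2 * (j + 1)) ≤ 1 := by
  have : 0 < s ^ (2 * (j + 1)) := pow_pos hs0 _
  linarith

lemma Q_pos {s : ℝ} (hs0 : 0 < s) (hs1 : s < 1) (n : ℕ) : 0 < Q s n :=
  prod_pos fun j _ => fac_pos hs0 hs1 j

lemma Q_anti {s : ℝ} (hs0 : 0 < s) (hs1 : s < 1) : Antitone (Q s) := by
  refine antitone_nat_of_succ_le fun n => ?_
  rw [Q_succ]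
  exact mul_le_of_le_one_right (Q_pos hs0 hs1 n).le (fac_le hs0 n)

/-- the infinite product `(s^2; s^2)_∞` -/
noncomputable def Qi (s : ℝ) : ℝ := ∏' j : ℕ, (1 - s ^ (2 * (j + 1)))

lemma summable_pow_two_mul {s : ℝ} (hs0 : 0 < s) (hs1 : s < 1) :
    Summable (fun j : ℕ => s ^ (2 * (j + 1))) := by
  have h := summable_geometric_of_lt_one (r := s ^ 2) (by positivity)
    (pow_lt_one₀ hs0.le hs1 (by norm_num))
  have h2 := h.mul_left (s ^ 2)
  refine h2.congr fun j => ?_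
  rw [← pow_mul, ← pow_add]; congr 1; ring

lemma hasProd_Qi {s : ℝ} (hs0 : 0 < s) (hs1 : s < 1) :
    HasProd (fun j : ℕ => (1 - s ^ (2 * (j + 1)))) (Qi s) := by
  have h := (Real.multipliable_one_add_of_summable (summable_pow_two_mul hs0 hs1).neg).hasProd
  simpa [Qi, sub_eq_add_neg] using h

lemma tendsto_Q {s : ℝ} (hs0 : 0 < s) (hs1 : s < 1) : Tendsto (Q s) atTop (𝓝 (Qi s)) :=
  (hasProd_Qi hs0 hs1).tendsto_prod_nat

lemma Qi_pos {s : ℝ} (hs0 : 0 < s) (hs1 : s < 1) : 0 < Qi s := by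
  have h1 : Summable (fun j : ℕ => Real.log (1 + (-s ^ (2 * (j + 1))))) :=
    Real.summable_log_one_add_of_summable (summable_pow_two_mul hs0 hs1).neg
  have h2 := Real.rexp_tsum_eq_tprod (f := fun j : ℕ => (1 + (-s ^ (2 * (j + 1)))))
    (fun j => by have := fac_pos hs0 hs1 j; simpa [sub_eq_add_neg] using this) h1
  have h3 : Qi s = ∏' j : ℕ, (1 + (-s ^ (2 * (j + 1)))) := by simp [Qi, sub_eq_add_neg]
  rw [h3, ← h2]
  exact Real.exp_pos _

lemma Qi_le {s : ℝ} (hs0 : 0 < s) (hs1 : s < 1) (n : ℕ) : Qi s ≤ Q s n :=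
  (Q_anti hs0 hs1).le_of_tendsto (tendsto_Q hs0 hs1) n

lemma Q_le_one {s : ℝ} (hs0 : 0 < s) (hs1 : s < 1) (n : ℕ) : Q s n ≤ 1 := by
  have := Q_anti hs0 hs1 (Nat.zero_le n)
  rwa [Q_zero] at this

/-- Gaussian binomial coefficients in base `s^2`. -/
noncomputable def gb (s : ℝ) (n r : ℕ) : ℝ :=
  if r ≤ n then Q s n / (Q s r * Q s (n - r)) else 0

lemma gb_zero_right {s : ℝ} (hs0 : 0 < s) (hs1 : s < 1) (n : ℕ) : gb s n 0 = 1 := by
  have := (Q_pos hs0 hs1 n).ne'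
  simp [gb, Q_zero, this]

lemma gb_self {s : ℝ} (hs0 : 0 < s) (hs1 : s < 1) (n : ℕ) : gb s n n = 1 := by
  have := (Q_pos hs0 hs1 n).ne'
  simp [gb, Q_zero, this]

lemma gb_of_lt {s : ℝ} {n r : ℕ} (h : n < r) : gb s n r = 0 := by
  simp [gb, not_le.mpr h]

lemma gb_succ_succ {s : ℝ} (hs0 : 0 < s) (hs1 : s < 1) (n r : ℕ) :
    gb s (n + 1) (r + 1) = gb s n (r + 1) + s ^ (2 * (n - r)) * gb s n r := by
  rcases lt_trichotomy r n with h | h | h
  · have e1 : n + 1 - (r + 1) = (n - r - 1) + 1 := by omega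
    have e2 : n - r = (n - r - 1) + 1 := by omega
    have e3 : n - (r + 1) = n - r - 1 := by omega
    have h1 := (Q_pos hs0 hs1 r).ne'
    have h2 := (Q_pos hs0 hs1 (n - r - 1)).ne'
    have h3 := (fac_pos hs0 hs1 r).ne'
    have h4 := (fac_pos hs0 hs1 (n - r - 1)).ne'
    have e4 : s ^ (2 * (n + 1)) = s ^ (2 * (n - r - 1 + 1)) * s ^ (2 * (r + 1)) := by
      rw [← pow_add]; congr 1; omega
    simp only [gb, if_pos (show r + 1 ≤ n + 1 by omega), if_pos (show r + 1 ≤ n by omega),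
      if_pos (show r ≤ n by omega), e1, e3]
    rw [e2]
    simp only [Q_succ, Nat.add_sub_cancel]
    rw [e4]
    field_simp
    ring
  · subst h
    rw [gb_self hs0 hs1, gb_self hs0 hs1, gb_of_lt (by omega)]
    simp
  · rw [gb_of_lt (by omega), gb_of_lt (by omega), gb_of_lt h]
    simp

lemma gb_nonneg {s : ℝ} (hs0 : 0 < s) (hs1 : s < 1) (n r : ℕ) : 0 ≤ gb s n r := by
  unfold gb
  split_ifs
  · have h1 := Q_pos hs0 hs1 n
    have h2 := Q_pos hs0 hs1 r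
    have h3 := Q_pos hs0 hs1 (n - r)
    positivity
  · exact le_rfl

lemma gb_le {s : ℝ} (hs0 : 0 < s) (hs1 : s < 1) (n r : ℕ) : gb s n r ≤ 1 / (Qi s * Qi s) := by
  have h0 := Qi_pos hs0 hs1
  unfold gb
  split_ifs
  · have h2 := Qi_le hs0 hs1 r
    have h3 := Qi_le hs0 hs1 (n - r)
    have h1 := Q_le_one hs0 hs1 n
    have h4 := Q_pos hs0 hs1 n
    exact div_le_div₀ zero_le_one h1 (by positivity) (mul_le_mul h2 h3 h0.le (by linarith))
  · positivity

/-- finite q-binomial theorem, base `s^2` -/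
lemma qbinom {s : ℝ} (hs0 : 0 < s) (hs1 : s < 1) (x : ℂ) (n : ℕ) :
    ∏ j ∈ range n, (1 + x * (s : ℂ) ^ (2 * j)) =
      ∑ r ∈ range (n + 1), (gb s n r : ℂ) * (s : ℂ) ^ (r * (r - 1)) * x ^ r := by
  induction n with
  | zero => simp [gb_zero_right hs0 hs1]
  | succ n ih =>
    rw [prod_range_succ, ih, sum_range_succ' _ (n + 1)]
    have h1 : ∀ r ∈ range (n + 1),
        (gb s (n + 1) (r + 1) : ℂ) * (s : ℂ) ^ ((r + 1) * (r + 1 - 1)) * x ^ (r + 1)
        = (gb s n (r + 1) : ℂ) * (s : ℂ) ^ ((r + 1) * (r + 1 - 1)) * x ^ (r + 1)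
          + (gb s n r : ℂ) * (s : ℂ) ^ (r * (r - 1)) * x ^ r * (x * (s : ℂ) ^ (2 * n)) := by
      intro r hr
      rw [gb_succ_succ hs0 hs1]
      have hr' : r ≤ n := by simpa [Nat.lt_succ_iff] using hr
      have e : (s : ℂ) ^ (2 * (n - r)) * (s : ℂ) ^ ((r + 1) * (r + 1 - 1))
          = (s : ℂ) ^ (r * (r - 1)) * (s : ℂ) ^ (2 * n) := by
        rw [← pow_add, ← pow_add]; congr 1
        rcases r with _ | r
        · simp
        · simp only [Nat.add_sub_cancel]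
          obtain ⟨d, rfl⟩ := Nat.exists_eq_add_of_le hr'
          simp only [Nat.add_sub_cancel_left]
          ring
      simp only [Nat.add_sub_cancel, Complex.ofReal_add, Complex.ofReal_mul,
        Complex.ofReal_pow] at e ⊢
      generalize (s : ℂ) ^ ((r + 1) * r) = A at e ⊢
      calc _ = (gb s n (r + 1) : ℂ) * A * x ^ (r + 1)
          + (gb s n r : ℂ) * ((s : ℂ) ^ (2 * (n - r)) * A)
            * x ^ (r + 1) := by ring
        _ = _ := by rw [e]; ring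
    rw [sum_congr rfl h1, sum_add_distrib, ← sum_mul]
    have h2 : ∑ r ∈ range (n + 1),
        (gb s n (r + 1) : ℂ) * (s : ℂ) ^ ((r + 1) * (r + 1 - 1)) * x ^ (r + 1)
        + (gb s (n + 1) 0 : ℂ) * (s : ℂ) ^ (0 * (0 - 1)) * x ^ 0
        = ∑ r ∈ range (n + 1), (gb s n r : ℂ) * (s : ℂ) ^ (r * (r - 1)) * x ^ r := by
      have h3 := sum_range_succ' (fun r => (gb s n r : ℂ) * (s : ℂ) ^ (r * (r - 1)) * x ^ r) (n + 1)
      rw [sum_range_succ, gb_of_lt (show n < n + 1 by omega)] at h3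
      simp only [Complex.ofReal_zero, zero_mul, add_zero] at h3
      rw [h3, gb_zero_right hs0 hs1, gb_zero_right hs0 hs1]
      simp
    rw [← h2]
    ring

/-- finite form of the triple product -/
lemma finite_jtp {s : ℝ} (hs0 : 0 < s) (hs1 : s < 1) {z : ℂ} (hz : z ≠ 0) (N : ℕ) :
    (∏ j ∈ range N, (1 - z * (s : ℂ) ^ (2 * j))) *
      (∏ j ∈ range N, (1 - z⁻¹ * (s : ℂ) ^ (2 * (j + 1)))) =
      ∑ r ∈ range (2 * N + 1), (gb s (2 * N) r : ℂ) *
        ((-z) ^ ((r : ℤ) - N) * (s : ℂ) ^ (((r : ℤ) - N) * ((r : ℤ) - N) - ((r : ℤ) - N))) := by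
  have hs : (s : ℂ) ≠ 0 := by exact_mod_cast hs0.ne'
  have hz' : (-z) ≠ 0 := neg_ne_zero.mpr hz
  have hq := qbinom hs0 hs1 (-z * (s : ℂ) ^ (-(2 * N : ℤ))) (2 * N)
  -- rewrite the left-hand side
  have hL : ∏ j ∈ range (2 * N), (1 + -z * (s : ℂ) ^ (-(2 * N : ℤ)) * (s : ℂ) ^ (2 * j))
      = ((-z) ^ (N : ℤ) * (s : ℂ) ^ (-((N : ℤ) * (N + 1)))) *
        ((∏ j ∈ range N, (1 - z * (s : ℂ) ^ (2 * j))) *
        (∏ j ∈ range N, (1 - z⁻¹ * (s : ℂ) ^ (2 * (j + 1))))) := by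
    rw [two_mul N, prod_range_add]
    have hA : ∏ j ∈ range N, (1 + -z * (s : ℂ) ^ (-(((N + N : ℕ) : ℤ))) * (s : ℂ) ^ (2 * (N + j)))
        = ∏ j ∈ range N, (1 - z * (s : ℂ) ^ (2 * j)) := by
      refine prod_congr rfl fun j _ => ?_
      rw [← zpow_natCast, ← zpow_natCast, mul_assoc, ← zpow_add₀ hs]
      have : (-(((N + N : ℕ) : ℤ)) + ((2 * (N + j) : ℕ) : ℤ)) = ((2 * j : ℕ) : ℤ) := by
        push_cast; ring
      rw [this]; ring
    have hB : ∏ j ∈ range N, (1 + -z * (s : ℂ) ^ (-(((N + N : ℕ) : ℤ))) * (s : ℂ) ^ (2 * j))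
        = ((-z) ^ (N : ℤ) * (s : ℂ) ^ (-((N : ℤ) * (N + 1)))) *
          ∏ j ∈ range N, (1 - z⁻¹ * (s : ℂ) ^ (2 * (j + 1))) := by
      rw [← prod_range_reflect]
      have h1 : ∀ j ∈ range N,
          (1 + -z * (s : ℂ) ^ (-(((N + N : ℕ) : ℤ))) * (s : ℂ) ^ (2 * (N - 1 - j)))
          = ((-z) * (s : ℂ) ^ (-((2 * (j + 1) : ℕ) : ℤ))) *
            (1 - z⁻¹ * (s : ℂ) ^ (2 * (j + 1))) := by
        intro j hj
        have hj' : j < N := by simpa using hj
        have e1 : (s : ℂ) ^ (-(((N + N : ℕ) : ℤ))) * (s : ℂ) ^ (2 * (N - 1 - j))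
            = (s : ℂ) ^ (-((2 * (j + 1) : ℕ) : ℤ)) := by
          rw [← zpow_natCast, ← zpow_add₀ hs]; congr 1
          have : ((2 * (N - 1 - j) : ℕ) : ℤ) = 2 * (N - 1 - j) := by
            have : N - 1 - j = N - (1 + j) := by omega
            rw [this, Nat.cast_mul, Nat.cast_sub (by omega)]; push_cast; ring
          rw [this]; push_cast; ring
        have e2 : (s : ℂ) ^ (-((2 * (j + 1) : ℕ) : ℤ)) * (s : ℂ) ^ (2 * (j + 1)) = 1 := by
          rw [← zpow_natCast, ← zpow_add₀ hs, neg_add_cancel, zpow_zero]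
        calc _ = 1 + -z * ((s : ℂ) ^ (-(((N + N : ℕ) : ℤ))) * (s : ℂ) ^ (2 * (N - 1 - j))) := by
              ring
          _ = (z * z⁻¹) * ((s : ℂ) ^ (-((2 * (j + 1) : ℕ) : ℤ)) * (s : ℂ) ^ (2 * (j + 1)))
              + -z * (s : ℂ) ^ (-((2 * (j + 1) : ℕ) : ℤ)) := by
              rw [e1, e2, mul_inv_cancel₀ hz]; ring
          _ = _ := by ring
      rw [prod_congr rfl h1, prod_mul_distrib]
      congr 1
      rw [prod_mul_distrib, prod_const, card_range, zpow_natCast]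
      congr 1
      clear hq h1 hA
      induction N with
      | zero => simp
      | succ N ihN =>
        rw [prod_range_succ, ihN, ← zpow_add₀ hs]
        congr 1; push_cast; ring
    have e0 : (-(2 * (N : ℤ))) = -(((N + N : ℕ) : ℤ)) := by push_cast; ring
    rw [e0, hA, hB]; ring
  have e00 : ((2 * N : ℕ) : ℤ) = 2 * (N : ℤ) := by push_cast; ring
  rw [hL] at hq
  have hne : ((-z) ^ (N : ℤ) * (s : ℂ) ^ (-((N : ℤ) * (N + 1)))) ≠ 0 :=
    mul_ne_zero (zpow_ne_zero _ hz') (zpow_ne_zero _ hs)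
  refine mul_left_cancel₀ hne ?_
  rw [hq, mul_sum]
  refine sum_congr rfl fun r _ => ?_
  have e1 : (s : ℂ) ^ (r * (r - 1)) = (s : ℂ) ^ ((r : ℤ) * (r - 1)) := by
    rw [← zpow_natCast]; congr 1
    rcases r with _ | r
    · simp
    · push_cast; simp
  rw [mul_pow, e1, ← zpow_natCast (-z), ← zpow_natCast ((s : ℂ) ^ (-(2 * (N : ℤ)))), ← zpow_mul]
  have e2 : (-z) ^ (r : ℤ) = (-z) ^ (N : ℤ) * (-z) ^ ((r : ℤ) - N) := by
    rw [← zpow_add₀ hz']; congr 1; ring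
  have e3 : (s : ℂ) ^ ((r : ℤ) * (r - 1)) * (s : ℂ) ^ (-(2 * (N : ℤ)) * r)
      = (s : ℂ) ^ (-((N : ℤ) * (N + 1))) *
        (s : ℂ) ^ (((r : ℤ) - N) * ((r : ℤ) - N) - ((r : ℤ) - N)) := by
    rw [← zpow_add₀ hs, ← zpow_add₀ hs]; congr 1; ring
  calc _ = (gb s (2 * N) r : ℂ) * (-z) ^ (r : ℤ) *
      ((s : ℂ) ^ ((r : ℤ) * (r - 1)) * (s : ℂ) ^ (-(2 * (N : ℤ)) * r)) := by ring
    _ = _ := by rw [e2, e3]; ring

/-- summability of `x^m s^(m^2-m)` over the integers -/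
lemma summable_theta_nat {s : ℝ} (hs0 : 0 < s) (hs1 : s < 1) {x : ℝ} (hx : 0 < x) :
    Summable (fun n : ℕ => x ^ n * s ^ ((n : ℤ) * n - n)) := by
  refine summable_of_ratio_test_tendsto_lt_one (l := 0) (by norm_num) ?_ ?_
  · exact Eventually.of_forall fun n => by positivity
  · have h : Tendsto (fun n : ℕ => x * (s ^ 2) ^ n) atTop (𝓝 (x * 0)) :=
      (tendsto_pow_atTop_nhds_zero_of_lt_one (by positivity)
        (pow_lt_one₀ hs0.le hs1 (by norm_num))).const_mul x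
    rw [mul_zero] at h
    refine h.congr fun n => ?_
    have h1 : 0 < x ^ n * s ^ ((n : ℤ) * n - n) := by positivity
    have h2 : 0 < x ^ (n + 1) * s ^ (((n + 1 : ℕ) : ℤ) * ((n + 1 : ℕ) : ℤ) - ((n + 1 : ℕ) : ℤ)) := by
      positivity
    rw [Real.norm_of_nonneg h1.le, Real.norm_of_nonneg h2.le, eq_div_iff h1.ne']
    have e : s ^ (((n + 1 : ℕ) : ℤ) * ((n + 1 : ℕ) : ℤ) - ((n + 1 : ℕ) : ℤ))
        = (s ^ 2) ^ n * s ^ ((n : ℤ) * n - n) := by
      rw [← pow_mul, ← zpow_natCast, ← zpow_add₀ hs0.ne']; congr 1; push_cast; ring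
    rw [e]; ring

lemma summable_theta_real {s : ℝ} (hs0 : 0 < s) (hs1 : s < 1) {x : ℝ} (hx : 0 < x) :
    Summable (fun m : ℤ => x ^ m * s ^ (m * m - m)) := by
  rw [summable_int_iff_summable_nat_and_neg]
  constructor
  · refine (summable_theta_nat hs0 hs1 hx).congr fun n => ?_
    rw [zpow_natCast]
  · refine (summable_theta_nat hs0 hs1 (x := s ^ 2 * x⁻¹) (by positivity)).congr fun n => ?_
    rw [mul_pow, zpow_neg, zpow_natCast, ← pow_mul, inv_pow, ← zpow_natCast s (2 * n)]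
    have : s ^ (((2 * n : ℕ) : ℤ)) * s ^ ((n : ℤ) * n - n) = s ^ (-(n : ℤ) * -(n : ℤ) - -(n : ℤ)) := by
      rw [← zpow_add₀ hs0.ne']; congr 1; push_cast; ring
    rw [← this]; ring

lemma norm_theta_term {s : ℝ} (hs0 : 0 < s) (z : ℂ) (m : ℤ) :
    ‖z ^ m * (s : ℂ) ^ (m * m - m)‖ = ‖z‖ ^ m * s ^ (m * m - m) := by
  rw [norm_mul, norm_zpow, norm_zpow, Complex.norm_real, Real.norm_of_nonneg hs0.le]

lemma multipliable_z {s : ℝ} (hs0 : 0 < s) (hs1 : s < 1) (z : ℂ) :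
    HasProd (fun j : ℕ => (1 - z * (s : ℂ) ^ (2 * j))) (∏' j : ℕ, (1 - z * (s : ℂ) ^ (2 * j))) := by
  have h : Summable (fun j : ℕ => ‖-(z * (s : ℂ) ^ (2 * j))‖) := by
    have h1 := (summable_geometric_of_lt_one (r := s ^ 2) (by positivity)
      (pow_lt_one₀ hs0.le hs1 (by norm_num))).mul_left ‖z‖
    refine h1.congr fun j => ?_
    rw [norm_neg, norm_mul, norm_pow, Complex.norm_real, Real.norm_of_nonneg hs0.le, pow_mul]
  have h2 := (multipliable_one_add_of_summable h).hasProd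
  simpa [sub_eq_add_neg] using h2

lemma multipliable_z' {s : ℝ} (hs0 : 0 < s) (hs1 : s < 1) (z : ℂ) :
    HasProd (fun j : ℕ => (1 - z * (s : ℂ) ^ (2 * (j + 1))))
      (∏' j : ℕ, (1 - z * (s : ℂ) ^ (2 * (j + 1)))) := by
  have h : Summable (fun j : ℕ => ‖-(z * (s : ℂ) ^ (2 * (j + 1)))‖) := by
    have h1 := (summable_pow_two_mul hs0 hs1).mul_left ‖z‖
    refine h1.congr fun j => ?_
    rw [norm_neg, norm_mul, norm_pow, Complex.norm_real, Real.norm_of_nonneg hs0.le]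
  have h2 := (multipliable_one_add_of_summable h).hasProd
  simpa [sub_eq_add_neg] using h2

/-- modified theta function `θ(z; s^2)` -/
noncomputable def th (s : ℝ) (z : ℂ) : ℂ :=
  (∏' j : ℕ, (1 - z * (s : ℂ) ^ (2 * j))) * (∏' j : ℕ, (1 - z⁻¹ * (s : ℂ) ^ (2 * (j + 1))))

/-- **Jacobi triple product**. -/
theorem jtp {s : ℝ} (hs0 : 0 < s) (hs1 : s < 1) {z : ℂ} (hz : z ≠ 0) :
    HasSum (fun m : ℤ => (-z) ^ m * (s : ℂ) ^ (m * m - m)) ((Qi s : ℂ) * th s z) := by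
  have hz' : (-z) ≠ 0 := neg_ne_zero.mpr hz
  have hQ := Qi_pos hs0 hs1
  set F : ℕ → ℤ → ℂ := fun N m => if -(N : ℤ) ≤ m ∧ m ≤ N then
    (gb s (2 * N) (m + N).toNat : ℂ) * ((-z) ^ m * (s : ℂ) ^ (m * m - m)) else 0 with hF
  set B : ℤ → ℝ := fun m => 1 / (Qi s * Qi s) * (‖-z‖ ^ m * s ^ (m * m - m)) with hB
  have hzn : 0 < ‖-z‖ := norm_pos_iff.mpr hz'
  have hBs : Summable B := (summable_theta_real hs0 hs1 hzn).mul_left _
  -- pointwise limit
  have hlim : ∀ m : ℤ, Tendsto (fun N : ℕ => F N m) atTop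
      (𝓝 ((1 / Qi s : ℝ) * ((-z) ^ m * (s : ℂ) ^ (m * m - m)))) := by
    intro m
    have h1 : Tendsto (fun N : ℕ => gb s (2 * N) (m + N).toNat) atTop (𝓝 (1 / Qi s)) := by
      have t0 := tendsto_Q hs0 hs1
      have a1 : Tendsto (fun N : ℕ => 2 * N) atTop atTop :=
        tendsto_atTop_mono (fun N => by simp only [id]; omega) tendsto_id
      have a2 : Tendsto (fun N : ℕ => (m + N).toNat) atTop atTop := by
        refine tendsto_atTop_mono (f := fun N : ℕ => N - m.natAbs) (fun N => by omega) ?_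
        exact tendsto_sub_atTop_nat _
      have a3 : Tendsto (fun N : ℕ => 2 * N - (m + N).toNat) atTop atTop := by
        refine tendsto_atTop_mono (f := fun N : ℕ => N - m.natAbs) (fun N => by omega) ?_
        exact tendsto_sub_atTop_nat _
      have h2 := (t0.comp a1).div ((t0.comp a2).mul (t0.comp a3)) (by positivity)
      have e : Qi s / (Qi s * Qi s) = 1 / Qi s := by field_simp
      rw [e] at h2
      refine h2.congr' ?_
      filter_upwards [eventually_ge_atTop m.natAbs] with N hN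
      have hle : (m + N).toNat ≤ 2 * N := by omega
      simp [gb, hle]
    have h3 : Tendsto (fun N : ℕ => ((gb s (2 * N) (m + N).toNat : ℝ) : ℂ) *
        ((-z) ^ m * (s : ℂ) ^ (m * m - m))) atTop
        (𝓝 (((1 / Qi s : ℝ) : ℂ) * ((-z) ^ m * (s : ℂ) ^ (m * m - m)))) :=
      ((Complex.continuous_ofReal.tendsto _).comp h1).mul_const _
    refine h3.congr' ?_
    filter_upwards [eventually_ge_atTop m.natAbs] with N hN
    have : -(N : ℤ) ≤ m ∧ m ≤ N := by omega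
    simp [hF, this]
  have hbound : ∀ N : ℕ, ∀ m : ℤ, ‖F N m‖ ≤ B m := by
    intro N m
    simp only [hF, hB]
    split_ifs
    · rw [norm_mul, norm_theta_term hs0, Complex.norm_real,
        Real.norm_of_nonneg (gb_nonneg hs0 hs1 _ _)]
      exact mul_le_mul_of_nonneg_right (gb_le hs0 hs1 _ _) (by positivity)
    · rw [norm_zero]; positivity
  have hT := tendsto_tsum_of_dominated_convergence hBs hlim (Eventually.of_forall hbound)
  -- value of the finite sums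
  have hval : ∀ N : ℕ, ∑' m : ℤ, F N m =
      (∏ j ∈ range N, (1 - z * (s : ℂ) ^ (2 * j))) *
      (∏ j ∈ range N, (1 - z⁻¹ * (s : ℂ) ^ (2 * (j + 1)))) := by
    intro N
    rw [finite_jtp hs0 hs1 hz N]
    rw [tsum_eq_sum (s := (range (2 * N + 1)).map
      ⟨fun r : ℕ => ((r : ℤ) - N), fun a b h => by
        have h' : (a : ℤ) - N = (b : ℤ) - N := h
        omega⟩)]
    · rw [sum_map]
      refine sum_congr rfl fun r hr => ?_
      have hr' : r < 2 * N + 1 := by simpa using hr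
      have h1 : -(N : ℤ) ≤ (r : ℤ) - N ∧ (r : ℤ) - N ≤ N := by omega
      have h2 : ((r : ℤ) - N + N).toNat = r := by omega
      simp only [hF, Function.Embedding.coeFn_mk, if_pos h1, h2]
    · intro m hm
      simp only [hF]
      rw [if_neg]
      rintro ⟨h1, h2⟩
      apply hm
      rw [Finset.mem_map]
      refine ⟨(m + N).toNat, by rw [mem_range]; omega, ?_⟩
      change (((m + N).toNat : ℕ) : ℤ) - N = m
      omega
  simp only [hval] at hT
  have hP := ((multipliable_z hs0 hs1 z).tendsto_prod_nat).mul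
    ((multipliable_z' hs0 hs1 z⁻¹).tendsto_prod_nat)
  have hE := tendsto_nhds_unique hT hP
  have hsum : Summable (fun m : ℤ => (-z) ^ m * (s : ℂ) ^ (m * m - m)) := by
    refine Summable.of_norm ?_
    exact (summable_theta_real hs0 hs1 hzn).congr fun m => (norm_theta_term hs0 _ _).symm
  have h5 := hsum.hasSum
  rw [tsum_mul_left] at hE
  have hQc : (Qi s : ℂ) ≠ 0 := by exact_mod_cast hQ.ne'
  have h6 : ∑' m : ℤ, (-z) ^ m * (s : ℂ) ^ (m * m - m) = (Qi s : ℂ) * th s z := by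
    rw [th, ← hE]; push_cast; field_simp
  rwa [h6] at h5

lemma summable_norm_theta {s : ℝ} (hs0 : 0 < s) (hs1 : s < 1) {z : ℂ} (hz : z ≠ 0) :
    Summable (fun m : ℤ => ‖z ^ m * (s : ℂ) ^ (m * m - m)‖) :=
  (summable_theta_real hs0 hs1 (norm_pos_iff.mpr hz)).congr fun _ => (norm_theta_term hs0 _ _).symm

end Pool.Agent.CMPP_M
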