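import Pool.Agent.Lib_helper89.Mac.PBlock

set_option autoImplicit false
set_option linter.unusedSectionVars false
set_option linter.unusedVariables false

open Finset Filter Topology

namespace Pool.Agent.CMPP_M

/-- the right-hand side of the frozen statement S10439, verbatim -/
noncomputable def RHSf (n : ℕ) (k : ℕ → ℕ) (q : ℝ) : ℝ :=
  ((∏' j : ℕ, (1 - q ^ (((∑ t ∈ Finset.range (n + 1), k t) + n + 1)
              + (2 * ((∑ t ∈ Finset.range (n + 1), k t) + n + 1)) * j)))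
        * (∏' j : ℕ, (1 - q ^ ((2 * ((∑ t ∈ Finset.range (n + 1), k t) + n + 1))
              + (2 * ((∑ t ∈ Finset.range (n + 1), k t) + n + 1)) * j))) ^ n
        / ((∏' j : ℕ, (1 - q ^ (1 + 2 * j))) * (∏' j : ℕ, (1 - q ^ (1 + j))) ^ n)
        * (∏ i ∈ Finset.Icc 1 n,
            ((∏' j : ℕ, (1 - q ^ (((∑ t ∈ Finset.Icc i n, k t) + (n - i) + 1)
                + ((∑ t ∈ Finset.range (n + 1), k t) + n + 1) * j)))
             * (∏' j : ℕ, (1 - q ^ ((((∑ t ∈ Finset.range (n + 1), k t) + n + 1)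
                - ((∑ t ∈ Finset.Icc i n, k t) + (n - i) + 1))
                + ((∑ t ∈ Finset.range (n + 1), k t) + n + 1) * j)))))
        * (∏ i ∈ Finset.Icc 1 n, ∏ l ∈ Finset.Icc (i + 1) n,
            ((∏' j : ℕ, (1 - q ^ ((((∑ t ∈ Finset.Icc i n, k t) - (∑ t ∈ Finset.Icc l n, k t)) + (l - i))
                + (2 * ((∑ t ∈ Finset.range (n + 1), k t) + n + 1)) * j)))
             * (∏' j : ℕ, (1 - q ^ (((2 * ((∑ t ∈ Finset.range (n + 1), k t) + n + 1))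
                - (((∑ t ∈ Finset.Icc i n, k t) - (∑ t ∈ Finset.Icc l n, k t)) + (l - i)))
                + (2 * ((∑ t ∈ Finset.range (n + 1), k t) + n + 1)) * j)))
             * (∏' j : ℕ, (1 - q ^ (((∑ t ∈ Finset.Icc i n, k t) + (∑ t ∈ Finset.Icc l n, k t) + (n - i) + (n - l) + 2)
                + (2 * ((∑ t ∈ Finset.range (n + 1), k t) + n + 1)) * j)))
             * (∏' j : ℕ, (1 - q ^ (((2 * ((∑ t ∈ Finset.range (n + 1), k t) + n + 1))
                - ((∑ t ∈ Finset.Icc i n, k t) + (∑ t ∈ Finset.Icc l n, k t) + (n - i) + (n - l) + 2))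
                + (2 * ((∑ t ∈ Finset.range (n + 1), k t) + n + 1)) * j))))))

section P2

variable {n : ℕ} {k : ℕ → ℕ}

/-- the complementary numbers -/
def bb (k : ℕ → ℕ) (i : ℕ) : ℕ := (∑ t ∈ range i, k t) + i

lemma bb_strictMono : StrictMono (bb k) := by
  refine strictMono_nat_of_lt_succ fun i => ?_
  simp only [bb, sum_range_succ]; omega

lemma bb_add {i : ℕ} (hi : i ≤ n) :
    bb k i + ((∑ t ∈ Icc i n, k t) + (n - i) + 1) = (∑ t ∈ range (n + 1), k t) + n + 1 := by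
  have h : ∑ t ∈ range (n + 1), k t = ∑ t ∈ range i, k t + ∑ t ∈ Icc i n, k t := by
    rw [← Finset.sum_range_add_sum_Ico _ (show i ≤ n + 1 by omega)]
    rfl
  rw [h, bb]; omega

/-- `c` lists the boundary colours in increasing order -/
def IsCol (n : ℕ) (k : ℕ → ℕ) (c : Fin (∑ t ∈ range (n + 1), k t) → ℕ) : Prop :=
  ∀ t, ∀ j ≤ n, (c t ≤ j ↔ (t : ℕ) < ∑ i ∈ range (j + 1), k i)

variable {c : Fin (∑ t ∈ range (n + 1), k t) → ℕ}

lemma IsCol.le (hc : IsCol n k c) (t) : c t ≤ n := (hc t n le_rfl).mpr t.2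

lemma IsCol.mono (hc : IsCol n k c) : Monotone c := by
  intro t u htu
  refine (hc t (c u) (hc.le u)).mpr ?_
  have h := (hc u (c u) (hc.le u)).mp le_rfl
  have : (t : ℕ) ≤ u := htu
  omega

lemma IsCol.strict (hc : IsCol n k c) : StrictMono (fun t => c t + (t : ℕ) + 1) := by
  intro t u htu
  have h1 := hc.mono htu.le
  have h2 : (t : ℕ) < u := htu
  simp only []
  omega

lemma IsCol.disj (hc : IsCol n k c) {i : ℕ} (hi1 : 1 ≤ i) (hi : i ≤ n) (t) :
    c t + (t : ℕ) + 1 ≠ bb k i := by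
  have h := hc t (i - 1) (by omega)
  rw [show i - 1 + 1 = i by omega] at h
  simp only [bb]
  rcases Nat.lt_or_ge (i - 1) (c t) with h1 | h1
  · have h2 : ¬ ((t : ℕ) < ∑ j ∈ range i, k j) := fun h3 => by
      have := h.mpr h3; omega
    omega
  · have h2 := h.mp h1
    omega

lemma setA_disj (hc : IsCol n k c) :
    Disjoint (univ.image (fun t => c t + (t : ℕ) + 1)) ((Icc 1 n).image (bb k)) := by
  rw [disjoint_left]
  intro x hx hy
  simp only [mem_image, mem_univ, true_and, mem_Icc] at hx hy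
  obtain ⟨t, rfl⟩ := hx
  obtain ⟨i, hi, h⟩ := hy
  exact hc.disj hi.1 hi.2 t h.symm

lemma setAB (hc : IsCol n k c) :
    (univ.image (fun t => c t + (t : ℕ) + 1)) ∪ ((Icc 1 n).image (bb k))
      = U ((∑ t ∈ range (n + 1), k t) + n + 1) := by
  refine eq_of_subset_of_card_le ?_ ?_
  · intro x hx
    simp only [mem_union, mem_image, mem_univ, true_and, mem_Icc] at hx
    simp only [U, mem_Icc]
    rcases hx with ⟨t, rfl⟩ | ⟨i, hi, rfl⟩
    · have := hc.le t; have := t.2; omega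
    · have h := bb_add (k := k) hi.2
      simp only [bb] at h ⊢
      omega
  · rw [card_union_of_disjoint (setA_disj hc), card_image_of_injective _ hc.strict.injective,
      card_image_of_injective _ bb_strictMono.injective]
    simp [U]

lemma cardA (hc : IsCol n k c) :
    #(univ.image (fun t => c t + (t : ℕ) + 1)) = ∑ t ∈ range (n + 1), k t := by
  rw [card_image_of_injective _ hc.strict.injective]; simp

lemma cardB : #((Icc 1 n).image (bb k)) = n := by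
  rw [card_image_of_injective _ bb_strictMono.injective]; simp

lemma Psi_B {q : ℝ} {M : ℕ} [NeZero (2 * M)] (hM : M = (∑ t ∈ range (n + 1), k t) + n + 1) :
    Psi (FE q (2 * M)) ((Icc 1 n).image (bb k)) =
      ∏ i ∈ Icc 1 n, ∏ l ∈ Icc (i + 1) n,
        (E q (((∑ t ∈ Icc i n, k t) - (∑ t ∈ Icc l n, k t)) + (l - i)) (2 * M) *
         E q (2 * M - (((∑ t ∈ Icc i n, k t) - (∑ t ∈ Icc l n, k t)) + (l - i))) (2 * M) *
         E q ((∑ t ∈ Icc i n, k t) + (∑ t ∈ Icc l n, k t) + (n - i) + (n - l) + 2) (2 * M) *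
         E q (2 * M - ((∑ t ∈ Icc i n, k t) + (∑ t ∈ Icc l n, k t) + (n - i) + (n - l) + 2)) (2 * M)) := by
  rw [Psi, prod_image (fun a _ b _ h => bb_strictMono.injective h)]
  have h1 : ∀ x, ((Icc 1 n).image (bb k)).filter (fun b => b < bb k x)
      = ((Icc 1 n).filter (fun l => l < x)).image (bb k) := by
    intro x
    ext b
    simp only [mem_filter, mem_image]
    constructor
    · rintro ⟨⟨l, hl, rfl⟩, h⟩; exact ⟨l, ⟨hl, bb_strictMono.lt_iff_lt.mp h⟩, rfl⟩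
    · rintro ⟨l, ⟨hl, h⟩, rfl⟩; exact ⟨⟨l, hl, rfl⟩, bb_strictMono.lt_iff_lt.mpr h⟩
  have h2 : ∀ x ∈ Icc 1 n, ∏ b ∈ ((Icc 1 n).image (bb k)).filter (fun b => b < bb k x),
      hh (FE q (2 * M)) (bb k x) b = ∏ l ∈ (Icc 1 n).filter (fun l => l < x),
      hh (FE q (2 * M)) (bb k x) (bb k l) := by
    intro x _
    rw [h1, prod_image (fun a _ b _ h => bb_strictMono.injective h)]
  rw [prod_congr rfl h2]
  have h3 : ∏ x ∈ Icc 1 n, ∏ l ∈ (Icc 1 n).filter (fun l => l < x),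
      hh (FE q (2 * M)) (bb k x) (bb k l)
      = ∏ l ∈ Icc 1 n, ∏ x ∈ Icc (l + 1) n, hh (FE q (2 * M)) (bb k x) (bb k l) := by
    refine prod_comm' ?_
    intro x y
    simp only [mem_Icc, mem_filter]
    constructor <;> intro h <;> omega
  rw [h3]
  refine prod_congr rfl fun i hi => prod_congr rfl fun l hl => ?_
  rw [mem_Icc] at hi hl
  have a1 := bb_add (k := k) (n := n) (i := i) (by omega)
  have a2 := bb_add (k := k) (n := n) (i := l) (by omega)
  have a3 : bb k i < bb k l := bb_strictMono (by omega)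
  have a4 : ∑ t ∈ Icc l n, k t ≤ ∑ t ∈ Icc i n, k t :=
    sum_le_sum_of_subset (Icc_subset_Icc (by omega) le_rfl)
  have a5 : 1 ≤ bb k i := by simp only [bb]; omega
  rw [hh, if_neg a3.ne', FE_sub a3 (by omega), FE_add (by omega) (by omega)]
  have e1 : bb k l - bb k i = (∑ t ∈ Icc i n, k t) - (∑ t ∈ Icc l n, k t) + (l - i) := by omega
  have e2 : 2 * M - (bb k l + bb k i)
      = (∑ t ∈ Icc i n, k t) + (∑ t ∈ Icc l n, k t) + (n - i) + (n - l) + 2 := by omega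
  have e3 : bb k l + bb k i
      = 2 * M - ((∑ t ∈ Icc i n, k t) + (∑ t ∈ Icc l n, k t) + (n - i) + (n - l) + 2) := by omega
  rw [e2, e1, ← e3]
  ring

lemma T_B {q : ℝ} {M : ℕ} (hM : M = (∑ t ∈ range (n + 1), k t) + n + 1) :
    ∏ b ∈ (Icc 1 n).image (bb k), E q b M * E q (M - b) M =
      ∏ i ∈ Icc 1 n, (E q ((∑ t ∈ Icc i n, k t) + (n - i) + 1) M *
        E q (M - ((∑ t ∈ Icc i n, k t) + (n - i) + 1)) M) := by
  rw [prod_image (fun a _ b _ h => bb_strictMono.injective h)]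
  refine prod_congr rfl fun i hi => ?_
  rw [mem_Icc] at hi
  have a1 := bb_add (k := k) (n := n) (i := i) (by omega)
  have e1 : M - bb k i = (∑ t ∈ Icc i n, k t) + (n - i) + 1 := by omega
  have e2 : M - ((∑ t ∈ Icc i n, k t) + (n - i) + 1) = bb k i := by omega
  rw [e1, e2, mul_comm]

/-- **P2** -/
theorem P2 {q s : ℝ} (hq0 : 0 < q) (hq1 : q < 1)
    (hs : s ^ 2 = q ^ (2 * ((∑ t ∈ range (n + 1), k t) + n + 1)))
    (hc : IsCol n k c) (Z : ℝ)
    (hZ : (Z : ℂ) * ((E q 1 1 : ℝ) : ℂ) ^ (∑ t ∈ range (n + 1), k t) =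
      ((Qi s : ℝ) : ℂ) ^ (∑ t ∈ range (n + 1), k t) *
      ((∏ t, th s ((q : ℂ) ^ (2 * (c t + (t : ℕ) + 1)))) * ∏ t, ∏ u ∈ Iio t,
        (th s ((q : ℂ) ^ ((c t + (t : ℕ) + 1) - (c u + (u : ℕ) + 1))) *
         th s ((q : ℂ) ^ ((c t + (t : ℕ) + 1) + (c u + (u : ℕ) + 1)))))) :
    Z = RHSf n k q := by
  set M := (∑ t ∈ range (n + 1), k t) + n + 1 with hM
  have : NeZero (2 * M) := ⟨by omega⟩
  have hM1 : 1 ≤ M := by omega
  rw [thprod_eq_Phi (N := 2 * M) hq0 hq1 hs (fun t => c t + (t : ℕ) + 1) hc.strict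
    (fun t => by omega) (fun t => by have := hc.le t; have := t.2; omega)] at hZ
  have hZr : Z * E q 1 1 ^ (∑ t ∈ range (n + 1), k t) = Qi s ^ (∑ t ∈ range (n + 1), k t) * Phi (FE q (2 * M)) (univ.image (fun t => c t + (t : ℕ) + 1)) := by
    exact_mod_cast hZ
  have hcomp := Phi_complement hM1 hq0 hq1 (setA_disj hc) (setAB hc)
  rw [cardA hc, cardB, T_B hM, Psi_B hM] at hcomp
  rw [Qi_eq hs] at hZr
  have p1 := E_pos hq0 hq1 (a := 1) (N := 1) le_rfl le_rfl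
  have p2 := E_pos hq0 hq1 (a := 2 * M) (N := 2 * M) (by omega) (by omega)
  have p3 := E_pos hq0 hq1 (a := 1) (N := 2) (by norm_num) (by norm_num)
  have hR := RR_pos (q := q) (N := 2 * M) (by omega) hq0 hq1
  have hZ2 : Z * RR q (2 * M) ^ (∑ t ∈ range (n + 1), k t) = Phi (FE q (2 * M)) (univ.image (fun t => c t + (t : ℕ) + 1)) := by
    rw [RR, div_pow, mul_div_assoc', hZr]
    field_simp
  have hZ3 : Z * RR q (2 * M) ^ n = (E q M (2 * M) / E q 1 2) *
      ((∏ i ∈ Icc 1 n, (E q ((∑ t ∈ Icc i n, k t) + (n - i) + 1) M *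
        E q (M - ((∑ t ∈ Icc i n, k t) + (n - i) + 1)) M)) * (∏ i ∈ Icc 1 n, ∏ l ∈ Icc (i + 1) n,
        (E q (((∑ t ∈ Icc i n, k t) - (∑ t ∈ Icc l n, k t)) + (l - i)) (2 * M) *
         E q (2 * M - (((∑ t ∈ Icc i n, k t) - (∑ t ∈ Icc l n, k t)) + (l - i))) (2 * M) *
         E q ((∑ t ∈ Icc i n, k t) + (∑ t ∈ Icc l n, k t) + (n - i) + (n - l) + 2) (2 * M) *
         E q (2 * M - ((∑ t ∈ Icc i n, k t) + (∑ t ∈ Icc l n, k t) + (n - i) + (n - l) + 2)) (2 * M)))) := by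
    rw [← hZ2] at hcomp
    have : RR q (2 * M) ^ (∑ t ∈ range (n + 1), k t) * (Z * RR q (2 * M) ^ n) = RR q (2 * M) ^ (∑ t ∈ range (n + 1), k t) * ((E q M (2 * M) / E q 1 2) *
      ((∏ i ∈ Icc 1 n, (E q ((∑ t ∈ Icc i n, k t) + (n - i) + 1) M *
        E q (M - ((∑ t ∈ Icc i n, k t) + (n - i) + 1)) M)) * (∏ i ∈ Icc 1 n, ∏ l ∈ Icc (i + 1) n,
        (E q (((∑ t ∈ Icc i n, k t) - (∑ t ∈ Icc l n, k t)) + (l - i)) (2 * M) *
         E q (2 * M - (((∑ t ∈ Icc i n, k t) - (∑ t ∈ Icc l n, k t)) + (l - i))) (2 * M) *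
         E q ((∑ t ∈ Icc i n, k t) + (∑ t ∈ Icc l n, k t) + (n - i) + (n - l) + 2) (2 * M) *
         E q (2 * M - ((∑ t ∈ Icc i n, k t) + (∑ t ∈ Icc l n, k t) + (n - i) + (n - l) + 2)) (2 * M))))) := by
      linear_combination hcomp
    exact mul_left_cancel₀ (pow_ne_zero _ hR.ne') this
  have e11 : E q 1 1 = ∏' j : ℕ, (1 - q ^ (1 + j)) := by
    unfold E; exact tprod_congr fun j => by rw [one_mul]
  have hfinal : Z = (E q M (2 * M) * E q (2 * M) (2 * M) ^ n / (E q 1 2 * E q 1 1 ^ n)) *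
      (∏ i ∈ Icc 1 n, (E q ((∑ t ∈ Icc i n, k t) + (n - i) + 1) M *
        E q (M - ((∑ t ∈ Icc i n, k t) + (n - i) + 1)) M)) * (∏ i ∈ Icc 1 n, ∏ l ∈ Icc (i + 1) n,
        (E q (((∑ t ∈ Icc i n, k t) - (∑ t ∈ Icc l n, k t)) + (l - i)) (2 * M) *
         E q (2 * M - (((∑ t ∈ Icc i n, k t) - (∑ t ∈ Icc l n, k t)) + (l - i))) (2 * M) *
         E q ((∑ t ∈ Icc i n, k t) + (∑ t ∈ Icc l n, k t) + (n - i) + (n - l) + 2) (2 * M) *
         E q (2 * M - ((∑ t ∈ Icc i n, k t) + (∑ t ∈ Icc l n, k t) + (n - i) + (n - l) + 2)) (2 * M))) := by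
    have h1 : Z = (Z * RR q (2 * M) ^ n) * (E q (2 * M) (2 * M) ^ n / E q 1 1 ^ n) := by
      rw [RR, div_pow]; field_simp
    rw [h1, hZ3]
    field_simp
  rw [hfinal, e11]
  rfl

end P2

end Pool.Agent.CMPP_M
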