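import Pool.Agent.Lib_helper89.Mac.Macdonald
import Pool.Agent.Lib_helper89.Mac.EProd

set_option autoImplicit false
set_option linter.unusedSectionVars false
set_option linter.unusedVariables false

open Finset Filter Topology

namespace Pool.Agent.CMPP_M

section Conv

variable {q s : ℝ} {N : ℕ}

lemma Qi_eq (hs : s ^ 2 = q ^ N) : Qi s = E q N N := by
  unfold Qi E
  refine tprod_congr fun j => ?_
  rw [pow_mul, hs, ← pow_mul]
  congr 2; ring

lemma th_eq (hq0 : 0 < q) (hq1 : q < 1) (hN : 1 ≤ N) (hs : s ^ 2 = q ^ N) {a : ℕ} (ha : a ≤ N) :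
    th s ((q : ℂ) ^ a) = ((E q a N * E q (N - a) N : ℝ) : ℂ) := by
  have hqc : (q : ℂ) ≠ 0 := by exact_mod_cast hq0.ne'
  have hsc : (s : ℂ) ^ 2 = (q : ℂ) ^ N := by exact_mod_cast hs
  have h1 : ∏' j : ℕ, (1 - (q : ℂ) ^ a * (s : ℂ) ^ (2 * j)) = ((E q a N : ℝ) : ℂ) := by
    have h := (E_hasProd hq0 hq1 a hN).map Complex.ofRealHom Complex.continuous_ofReal
    have h' : HasProd (fun j : ℕ => (1 - (q : ℂ) ^ a * (s : ℂ) ^ (2 * j))) ((E q a N : ℝ) : ℂ) := by
      refine h.congr_fun ?_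
      intro j
      simp only [Function.comp_apply, Complex.ofRealHom_eq_coe]
      push_cast
      rw [pow_mul, hsc, ← pow_mul, ← pow_add]
    exact h'.tprod_eq
  have h2 : ∏' j : ℕ, (1 - ((q : ℂ) ^ a)⁻¹ * (s : ℂ) ^ (2 * (j + 1)))
      = ((E q (N - a) N : ℝ) : ℂ) := by
    have h := (E_hasProd hq0 hq1 (N - a) hN).map Complex.ofRealHom Complex.continuous_ofReal
    have h' : HasProd (fun j : ℕ => (1 - ((q : ℂ) ^ a)⁻¹ * (s : ℂ) ^ (2 * (j + 1))))
        ((E q (N - a) N : ℝ) : ℂ) := by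
      refine h.congr_fun ?_
      intro j
      simp only [Function.comp_apply, Complex.ofRealHom_eq_coe]
      push_cast
      rw [pow_mul, hsc, ← pow_mul]
      have e : N * (j + 1) = a + ((N - a) + N * j) := by
        obtain ⟨d, rfl⟩ := Nat.exists_eq_add_of_le ha
        simp only [Nat.add_sub_cancel_left]; ring
      rw [e, pow_add (q : ℂ) a, ← mul_assoc, inv_mul_cancel₀ (pow_ne_zero _ hqc), one_mul]
    exact h'.tprod_eq
  rw [th, h1, h2]; push_cast; ring

lemma th_eq_FE [NeZero N] (hq0 : 0 < q) (hq1 : q < 1) (hs : s ^ 2 = q ^ N) {a : ℕ}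
    (ha0 : 1 ≤ a) (ha : a < N) :
    th s ((q : ℂ) ^ a) = ((FE q N (a : ZMod N) : ℝ) : ℂ) := by
  rw [th_eq hq0 hq1 (by omega) hs ha.le, FE_nat ha0 ha]

/-- the bare theta product at `z_t = q^{v_t}` equals `Phi` -/
lemma thprod_eq_Phi [NeZero N] (hq0 : 0 < q) (hq1 : q < 1) (hs : s ^ 2 = q ^ N) {k : ℕ}
    (v : Fin k → ℕ) (hv : StrictMono v) (hv1 : ∀ t, 1 ≤ v t) (hvN : ∀ t, 2 * v t < N) :
    (∏ t, th s ((q : ℂ) ^ (2 * v t))) * ∏ t, ∏ u ∈ Iio t,
      (th s ((q : ℂ) ^ (v t - v u)) * th s ((q : ℂ) ^ (v t + v u)))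
      = ((Phi (FE q N) (univ.image v) : ℝ) : ℂ) := by
  rw [Phi_image v hv]
  push_cast
  congr 1
  · refine prod_congr rfl fun t _ => ?_
    rw [th_eq_FE hq0 hq1 hs (by have := hv1 t; omega) (hvN t)]
    push_cast; rfl
  · refine prod_congr rfl fun t _ => prod_congr rfl fun u hu => ?_
    have hut := hv (mem_Iio.mp hu)
    have h1 := hv1 t
    have h2 := hv1 u
    have h3 := hvN t
    rw [th_eq_FE hq0 hq1 hs (by omega) (by omega), th_eq_FE hq0 hq1 hs (by omega) (by omega),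
      Nat.cast_sub hut.le, Nat.cast_add]

end Conv

section P1

variable {q s : ℝ} (k : ℕ)

lemma prod_split_odd (g : ℕ → ℝ) :
    ∏ i ∈ range (2 * k + 1), g i = g 0 * (∏ i ∈ Icc 1 k, g i) * ∏ i ∈ Icc 1 k, g (2 * k + 1 - i) := by
  have h1 : range (2 * k + 1) = insert 0 (Icc 1 k ∪ (Icc 1 k).image (fun i => 2 * k + 1 - i)) := by
    ext i
    simp only [mem_range, mem_insert, mem_union, mem_image, mem_Icc]
    constructor
    · intro hi
      rcases Nat.eq_zero_or_pos i with h | h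
      · exact Or.inl h
      · rcases le_or_gt i k with h' | h'
        · right; left; omega
        · right; right; exact ⟨2 * k + 1 - i, by omega, by omega⟩
    · rintro (h | h | ⟨j, hj, h⟩) <;> omega
  rw [h1, prod_insert, prod_union, prod_image]
  · ring
  · intro a ha b hb hab
    simp only [coe_Icc, Set.mem_Icc] at ha hb
    simp only at hab
    omega
  · rw [disjoint_left]
    intro a ha hb
    simp only [mem_image, mem_Icc] at ha hb
    obtain ⟨b, hb, hab⟩ := hb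
    omega
  · simp only [mem_union, mem_image, mem_Icc, not_or, not_exists, not_and]
    constructor
    · omega
    · intro x hx; omega

lemma Phi_odd (hq0 : 0 < q) (hq1 : q < 1) :
    Phi (FE q (2 * k + 1)) (Icc 1 k) = RR q (2 * k + 1) ^ k := by
  set F := FE q (2 * k + 1) with hF
  have hpos : ∀ x, 0 < F x := fun x => FE_pos hq0 hq1 x
  have hev : ∀ x, F (-x) = F x := FE_even
  have h0 : F 0 = 1 := FE_zero
  have hG : ∏ x : ZMod (2 * k + 1), F x = RR q (2 * k + 1) ^ 2 := GG_FE hq0 hq1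
  set G := RR q (2 * k + 1) ^ 2 with hGdef
  have hrefl : ∀ i ∈ Icc 1 k, ((2 * k + 1 - i : ℕ) : ZMod (2 * k + 1)) = -(i : ZMod (2 * k + 1)) := by
    intro i hi
    rw [mem_Icc] at hi
    rw [Nat.cast_sub (by omega), ZMod.natCast_self, zero_sub]
  -- the row products
  have hrow : ∀ b ∈ Icc 1 k, (∏ u ∈ Icc 1 k, hh F u b) *
      (F (b : ZMod (2 * k + 1)) * F ((2 * b : ℕ) : ZMod (2 * k + 1))) = G := by
    intro b hb
    have h1 : G = ∏ x : ZMod (2 * k + 1), F (x - b) := by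
      rw [← hG]; exact (Equiv.prod_comp (Equiv.subRight (b : ZMod (2 * k + 1))) F).symm
    rw [h1, prod_zmod, prod_split_odd k (fun i => F ((i : ZMod (2 * k + 1)) - b))]
    have h2 : ∏ i ∈ Icc 1 k, F (((2 * k + 1 - i : ℕ) : ZMod (2 * k + 1)) - b)
        = ∏ i ∈ Icc 1 k, F ((i : ZMod (2 * k + 1)) + b) := by
      refine prod_congr rfl fun i hi => ?_
      rw [hrefl i hi, ← hev, neg_sub, sub_neg_eq_add, add_comm]
    rw [h2]
    have h3 : F (((0 : ℕ) : ZMod (2 * k + 1)) - b) = F (b : ZMod (2 * k + 1)) := by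
      rw [Nat.cast_zero, zero_sub, hev]
    have h5 : (∏ i ∈ Icc 1 k, F ((i : ZMod (2 * k + 1)) - b)) *
        ∏ i ∈ Icc 1 k, F ((i : ZMod (2 * k + 1)) + b)
        = (∏ u ∈ Icc 1 k, hh F u b) * F ((2 * b : ℕ) : ZMod (2 * k + 1)) := by
      rw [← prod_mul_distrib, ← mul_prod_erase _ _ hb, ← mul_prod_erase _ (fun u => hh F u b) hb]
      have h6 : hh F b b = 1 := by simp [hh]
      have h7 : F ((b : ZMod (2 * k + 1)) - b) * F ((b : ZMod (2 * k + 1)) + b)
          = F ((2 * b : ℕ) : ZMod (2 * k + 1)) := by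
        rw [sub_self, h0, one_mul]; congr 1; push_cast; ring
      rw [h6, h7]
      have h8 : ∏ x ∈ (Icc 1 k).erase b, F ((x : ZMod (2 * k + 1)) - b) *
          F ((x : ZMod (2 * k + 1)) + b) = ∏ x ∈ (Icc 1 k).erase b, hh F x b := by
        refine prod_congr rfl fun x hx => ?_
        rw [hh, if_neg (ne_of_mem_erase hx)]
      rw [h8]; ring
    rw [h3]
    calc _ = F (b : ZMod (2 * k + 1)) *
        ((∏ u ∈ Icc 1 k, hh F u b) * F ((2 * b : ℕ) : ZMod (2 * k + 1))) := by ring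
      _ = _ := by rw [← h5]; ring
  -- doubling
  have hdbl : ∏ b ∈ Icc 1 k, F ((2 * b : ℕ) : ZMod (2 * k + 1)) = ∏ b ∈ Icc 1 k, F (b : ZMod (2 * k + 1)) := by
    have hu : IsUnit (2 : ZMod (2 * k + 1)) := by
      have : IsUnit ((2 : ℕ) : ZMod (2 * k + 1)) :=
        (ZMod.isUnit_iff_coprime 2 (2 * k + 1)).mpr (by
          rw [Nat.coprime_two_left, ← Nat.not_even_iff_odd]
          intro h; obtain ⟨r, hr⟩ := h; omega)
      simpa using this
    obtain ⟨w, hw⟩ := hu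
    have e1 : ∏ x : ZMod (2 * k + 1), F x = ∏ x : ZMod (2 * k + 1), F (2 * x) := by
      have := Equiv.prod_comp (Units.mulLeft w) F
      rw [← this]
      refine prod_congr rfl fun x _ => ?_
      simp [hw]
    rw [prod_zmod, prod_zmod, prod_split_odd k (fun i => F (i : ZMod (2 * k + 1))),
      prod_split_odd k (fun i => F (2 * (i : ZMod (2 * k + 1))))] at e1
    have e2 : ∏ i ∈ Icc 1 k, F ((2 * k + 1 - i : ℕ) : ZMod (2 * k + 1))
        = ∏ i ∈ Icc 1 k, F (i : ZMod (2 * k + 1)) :=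
      prod_congr rfl fun i hi => by rw [hrefl i hi, hev]
    have e3 : ∏ i ∈ Icc 1 k, F (2 * ((2 * k + 1 - i : ℕ) : ZMod (2 * k + 1)))
        = ∏ i ∈ Icc 1 k, F (2 * (i : ZMod (2 * k + 1))) :=
      prod_congr rfl fun i hi => by rw [hrefl i hi, mul_neg, hev]
    rw [e2, e3, Nat.cast_zero, mul_zero, h0, one_mul, one_mul] at e1
    have p1 : 0 < ∏ i ∈ Icc 1 k, F (i : ZMod (2 * k + 1)) := prod_pos fun _ _ => hpos _
    have p2 : 0 < ∏ i ∈ Icc 1 k, F (2 * (i : ZMod (2 * k + 1))) := prod_pos fun _ _ => hpos _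
    have e4 : ∏ i ∈ Icc 1 k, F (i : ZMod (2 * k + 1)) = ∏ i ∈ Icc 1 k, F (2 * (i : ZMod (2 * k + 1))) := by
      refine (pow_left_inj₀ p1.le p2.le two_ne_zero).mp ?_
      rw [pow_two, pow_two]; exact e1
    rw [e4]
    refine prod_congr rfl fun i _ => ?_
    push_cast; rfl
  -- square
  have hGpos : 0 < G := by
    rw [← hG]; exact prod_pos fun _ _ => hpos _
  have hsq : Phi F (Icc 1 k) ^ 2 = G ^ k := by
    rw [Phi, mul_pow, Psi_sq hev]
    have e5 : ∏ a ∈ Icc 1 k, ∏ b ∈ Icc 1 k, hh F a b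
        = ∏ a ∈ Icc 1 k, G / (F (a : ZMod (2 * k + 1)) * F ((2 * a : ℕ) : ZMod (2 * k + 1))) := by
      refine prod_congr rfl fun a ha => ?_
      rw [eq_div_iff (mul_pos (hpos _) (hpos _)).ne', ← hrow a ha]
      congr 1
      exact prod_congr rfl fun b _ => hh_symm hev _ _
    rw [e5, prod_div_distrib, prod_const, prod_mul_distrib, ← hdbl]
    have p3 : 0 < ∏ b ∈ Icc 1 k, F ((2 * b : ℕ) : ZMod (2 * k + 1)) := prod_pos fun _ _ => hpos _
    have : #(Icc 1 k) = k := by simp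
    rw [this]
    field_simp
  have p4 : 0 < Phi F (Icc 1 k) := Phi_pos hpos _
  have hRR := RR_pos (q := q) (N := 2 * k + 1) (by omega) hq0 hq1
  refine (pow_left_inj₀ p4.le (by positivity) two_ne_zero).mp ?_
  rw [hsq, hGdef]; ring

/-- **P1**: the constant. -/
theorem P1 (hq0 : 0 < q) (hq1 : q < 1) (hs0 : 0 < s) (hs : s ^ 2 = q ^ (2 * k + 1)) :
    (∏ t : Fin k, th s ((q : ℂ) ^ (2 * ((t : ℕ) + 1)))) * ∏ t : Fin k, ∏ u ∈ Iio t,
      (th s ((q : ℂ) ^ (((t : ℕ) + 1) - ((u : ℕ) + 1))) * th s ((q : ℂ) ^ (((t : ℕ) + 1) + ((u : ℕ) + 1))))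
      = (((E q 1 1 / Qi s) ^ k : ℝ) : ℂ) := by
  have hv : StrictMono (fun t : Fin k => (t : ℕ) + 1) := fun a b h => by
    have : (a : ℕ) < b := h
    simpa using this
  have h := thprod_eq_Phi (N := 2 * k + 1) hq0 hq1 hs (fun t : Fin k => (t : ℕ) + 1) hv
    (fun t => by omega) (fun t => by have := t.2; omega)
  rw [h]
  have him : (univ.image (fun t : Fin k => (t : ℕ) + 1)) = Icc 1 k := by
    ext b
    simp only [mem_image, mem_univ, true_and, mem_Icc]
    constructor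
    · rintro ⟨t, rfl⟩; have := t.2; omega
    · rintro ⟨h1, h2⟩; exact ⟨⟨b - 1, by omega⟩, by simp only []; omega⟩
  rw [him, Phi_odd k hq0 hq1, RR, Qi_eq hs]

end P1

end Pool.Agent.CMPP_M
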