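import Pool.Agent.Lib_helper89.Mac.PBlock

set_option autoImplicit false
set_option linter.unusedSectionVars false
set_option linter.unusedVariables false

open Finset Filter Topology

namespace Pool.Agent.CMPP_M

section T

variable {q : ℝ}

lemma hasSum_finset_prod {f : ℕ → ℂ} (hf : Summable (fun i => ‖f i‖)) :
    HasSum (fun S : Finset ℕ => ∏ i ∈ S, f i) (∏' i, (1 + f i)) := by
  have h := summable_finsetProd_of_summable_norm hf
  rw [tprod_one_add h]
  exact h.hasSum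

lemma summable_norm_finset_prod {f : ℕ → ℂ} (hf : Summable (fun i => ‖f i‖)) :
    Summable (fun S : Finset ℕ => ‖∏ i ∈ S, f i‖) := by
  have h := summable_finsetProd_of_summable_norm (R := ℝ) (f := fun i => ‖f i‖) (by simpa using hf)
  simpa [norm_prod] using h

/-- weight of a pair of finite sets of naturals -/
noncomputable def wt0 (q : ℝ) (p : Finset ℕ × Finset ℕ) : ℝ :=
  (∏ x ∈ p.1, q ^ (x + 1)) * ∏ y ∈ p.2, q ^ y

lemma isL_B {s : ℝ} (hs0 : 0 < s) (hs1 : s < 1) (hs : s ^ 2 = q) (hq0 : 0 < q) (hq1 : q < 1) :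
    IsL (fun z : Fin 1 → ℂ => (Qi s : ℂ) * th s (-(z 0)⁻¹))
      (fun μ => ∑' p : (fun p : Finset ℕ × Finset ℕ => (fun _ : Fin 1 => ((#p.1 : ℤ) - #p.2))) ⁻¹' {μ},
        (Qi s : ℂ) * ((wt0 q (p : Finset ℕ × Finset ℕ) : ℝ) : ℂ)) := by
  refine IsL.of_family (J := Finset ℕ × Finset ℕ) (fun p => (Qi s : ℂ) * ((wt0 q p : ℝ) : ℂ))
    (fun p => (fun _ : Fin 1 => ((#p.1 : ℤ) - #p.2))) fun z hz => ?_
  have hz0 : z 0 ≠ 0 := hz 0
  have hsc : (s : ℂ) ^ 2 = (q : ℂ) := by exact_mod_cast hs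
  have hqs : Summable (fun j : ℕ => q ^ j) := summable_geometric_of_lt_one hq0.le hq1
  -- first factor
  have hf1 : Summable (fun j : ℕ => ‖z 0 * (q : ℂ) ^ (j + 1)‖) := by
    refine (hqs.mul_left (‖z 0‖ * q)).congr fun j => ?_
    rw [norm_mul, norm_pow, Complex.norm_real, Real.norm_of_nonneg hq0.le, pow_succ]; ring
  have hf2 : Summable (fun j : ℕ => ‖(z 0)⁻¹ * (q : ℂ) ^ j‖) := by
    refine (hqs.mul_left ‖(z 0)⁻¹‖).congr fun j => ?_
    rw [norm_mul, norm_pow, Complex.norm_real, Real.norm_of_nonneg hq0.le]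
  have a1 := hasSum_finset_prod hf1
  have a2 := hasSum_finset_prod hf2
  have b1 := summable_norm_finset_prod hf1
  have b2 := summable_norm_finset_prod hf2
  have c2 := (hasSum_mul' b1 b2 a1 a2).mul_left (Qi s : ℂ)
  have c1 := summable_norm_mul b1 b2
  have e : ∀ p : Finset ℕ × Finset ℕ, (Qi s : ℂ) * ((wt0 q p : ℝ) : ℂ) *
      mon z (fun _ : Fin 1 => ((#p.1 : ℤ) - #p.2))
      = (Qi s : ℂ) * ((∏ i ∈ p.1, z 0 * (q : ℂ) ^ (i + 1)) * ∏ i ∈ p.2, (z 0)⁻¹ * (q : ℂ) ^ i) := by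
    intro p
    rw [prod_mul_distrib, prod_mul_distrib, prod_const, prod_const, mon, Fin.prod_univ_one,
      zpow_sub₀ hz0, zpow_natCast, zpow_natCast, wt0]
    push_cast
    rw [inv_pow]
    ring
  have e2 : (∏' i : ℕ, (1 + z 0 * (q : ℂ) ^ (i + 1))) * (∏' i : ℕ, (1 + (z 0)⁻¹ * (q : ℂ) ^ i))
      = th s (-(z 0)⁻¹) := by
    rw [th, mul_comm]
    congr 1
    · refine tprod_congr fun j => ?_
      rw [pow_mul, hsc]; ring
    · refine tprod_congr fun j => ?_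
      rw [pow_mul, hsc, inv_neg, inv_inv]; ring
  constructor
  · refine (c1.mul_left ‖(Qi s : ℂ)‖).congr fun p => ?_
    rw [e, norm_mul (Qi s : ℂ)]
  · rw [e2] at c2
    simp only [e]
    exact c2

lemma isL_A {s : ℝ} (hs0 : 0 < s) (hs1 : s < 1) :
    IsL (fun z : Fin 1 → ℂ => (Qi s : ℂ) * th s (-(z 0)⁻¹))
      (fun μ => (s : ℂ) ^ (μ 0 * μ 0 + μ 0)) := by
  intro z hz
  have hz0 : z 0 ≠ 0 := hz 0
  have hw : -(z 0)⁻¹ ≠ 0 := neg_ne_zero.mpr (inv_ne_zero hz0)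
  have h2 := jtp hs0 hs1 hw
  have h1 := summable_norm_theta hs0 hs1 (neg_ne_zero.mpr hw)
  set e : (Fin 1 → ℤ) ≃ ℤ := (Equiv.funUnique (Fin 1) ℤ).trans (Equiv.neg ℤ) with he
  have he' : ∀ μ, e μ = -(μ 0) := fun μ => rfl
  have hterm : ∀ μ : Fin 1 → ℤ, (-(-(z 0)⁻¹)) ^ (e μ) * (s : ℂ) ^ (e μ * e μ - e μ)
      = (s : ℂ) ^ (μ 0 * μ 0 + μ 0) * mon z μ := by
    intro μ
    rw [he', neg_neg, mon, Fin.prod_univ_one, inv_zpow', neg_neg, mul_comm]
    congr 2; ring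
  constructor
  · refine (e.summable_iff.mpr h1).congr fun μ => ?_
    simp only [Function.comp_apply, hterm]
  · have h3 := e.hasSum_iff.mpr h2
    have e4 : ((fun m : ℤ => (-(-(z 0)⁻¹)) ^ m * (s : ℂ) ^ (m * m - m)) ∘ e)
        = fun μ => (s : ℂ) ^ (μ 0 * μ 0 + μ 0) * mon z μ := by
      funext μ; simp only [Function.comp_apply, hterm]
    rwa [e4] at h3

lemma summable_wt0 (hq0 : 0 < q) (hq1 : q < 1) : Summable (wt0 q) := by
  have hqs : Summable (fun j : ℕ => q ^ j) := summable_geometric_of_lt_one hq0.le hq1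
  have h1 : Summable (fun S : Finset ℕ => ∏ x ∈ S, q ^ (x + 1)) := by
    refine summable_finsetProd_of_summable_nonneg (fun i => by positivity) ?_
    exact (hqs.mul_left q).congr fun j => by rw [pow_succ]; ring
  have h2 : Summable (fun S : Finset ℕ => ∏ x ∈ S, q ^ x) :=
    summable_finsetProd_of_summable_nonneg (fun i => by positivity) hqs
  exact h1.mul_of_nonneg h2 (fun S => prod_nonneg fun i _ => by positivity)
    (fun S => prod_nonneg fun i _ => by positivity)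

/-- **T0**: the generating function of pairs of finite sets with `|X| - |Y| = d`. -/
theorem T0 (hq0 : 0 < q) (hq1 : q < 1) (d : ℤ) :
    HasSum (fun p : {p : Finset ℕ × Finset ℕ // (#p.1 : ℤ) - #p.2 = d} => wt0 q p.1)
      (q ^ (d * (d + 1) / 2) / E q 1 1) := by
  set s := Real.sqrt q with hsdef
  have hs0 : 0 < s := Real.sqrt_pos.mpr hq0
  have hs : s ^ 2 = q := Real.sq_sqrt hq0.le
  have hs1 : s < 1 := by
    rw [hsdef, Real.sqrt_lt' one_pos]; simpa using hq1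
  have hu := congrFun ((isL_A hs0 hs1).unique (isL_B hs0 hs1 hs hq0 hq1)) (fun _ => d)
  have hQ : Qi s = E q 1 1 := by
    have h : s ^ 2 = q ^ 1 := by rw [hs, pow_one]
    exact Qi_eq h
  have hQpos := Qi_pos hs0 hs1
  have hsub : Summable (fun p : {p : Finset ℕ × Finset ℕ // (#p.1 : ℤ) - #p.2 = d} => wt0 q p.1) :=
    (summable_wt0 hq0 hq1).subtype _
  -- rewrite the fibre sum
  have hfib : ∑' p : (fun p : Finset ℕ × Finset ℕ => (fun _ : Fin 1 => ((#p.1 : ℤ) - #p.2))) ⁻¹'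
      {(fun _ => d)}, (Qi s : ℂ) * ((wt0 q (p : Finset ℕ × Finset ℕ) : ℝ) : ℂ)
      = (Qi s : ℂ) * ((∑' p : {p : Finset ℕ × Finset ℕ // (#p.1 : ℤ) - #p.2 = d}, wt0 q p.1 : ℝ) : ℂ) := by
    rw [tsum_mul_left, Complex.ofReal_tsum]
    congr 1
    let e : ((fun p : Finset ℕ × Finset ℕ => (fun _ : Fin 1 => ((#p.1 : ℤ) - #p.2))) ⁻¹' {(fun _ => d)}
        : Set (Finset ℕ × Finset ℕ)) ≃ {p : Finset ℕ × Finset ℕ // (#p.1 : ℤ) - #p.2 = d} :=
      Equiv.subtypeEquivRight fun p => by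
        simp only [Set.mem_preimage, Set.mem_singleton_iff]
        constructor
        · intro h; exact congrFun h 0
        · intro h; funext _; exact h
    exact Equiv.tsum_eq e (fun p => ((wt0 q p.1 : ℝ) : ℂ))
  rw [hfib] at hu
  have hur : s ^ (d * d + d) = Qi s * ∑' p : {p : Finset ℕ × Finset ℕ // (#p.1 : ℤ) - #p.2 = d}, wt0 q p.1 := by
    exact_mod_cast hu
  have hpow : s ^ (d * d + d) = q ^ (d * (d + 1) / 2) := by
    have h1 : d * d + d = 2 * (d * (d + 1) / 2) := by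
      have h2 : (2 : ℤ) ∣ d * (d + 1) := (Int.even_mul_succ_self d).two_dvd
      rw [Int.mul_ediv_cancel' h2]; ring
    rw [h1, zpow_mul, zpow_ofNat, hs]
  have := hsub.hasSum
  have e3 : ∑' p : {p : Finset ℕ × Finset ℕ // (#p.1 : ℤ) - #p.2 = d}, wt0 q p.1
      = q ^ (d * (d + 1) / 2) / E q 1 1 := by
    rw [← hpow, hur, ← hQ]; field_simp
  rwa [e3] at this

end T

end Pool.Agent.CMPP_M
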